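import Pool.Agent.H63.Hager.GXm

set_option autoImplicit false
set_option linter.unusedSectionVars false

namespace Pool.Agent.H63.Hager

open HG Finset

theorem conn_closed {V : Type} {G : SimpleGraph V} {X : Set V} (h : (G.induce Xᶜ).Connected)
    (C : Set V) {p : V} (hp : p ∈ C) (hpX : p ∉ X)
    (hcl : ∀ x ∈ C, x ∉ X → ∀ y, G.Adj x y → y ∉ X → y ∈ C) : ∀ q, q ∉ X → q ∈ C := by
  intro q hq
  obtain ⟨W⟩ := h.preconnected ⟨p, hpX⟩ ⟨q, hq⟩
  have : ∀ (a b : (Xᶜ : Set V)) (W : (G.induce Xᶜ).Walk a b), a.1 ∈ C → b.1 ∈ C := by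
    intro a b W
    induction W with
    | nil => exact id
    | @cons u v w hadj _ ih => exact fun ha => ih (hcl _ ha u.2 _ hadj v.2)
  exact this _ _ W hp

theorem sp_netOf {V : Type} [Finite V] (G : SimpleGraph V) {t n : ℕ} (τ : Fin t → V)
    (hτ : Function.Injective τ) (hV : n + 1 ≤ Nat.card V)
    (hG : ∀ X : Finset V, X.card < n → (G.induce ((↑X : Set V)ᶜ)).Connected) :
    SP (netOf G τ).adj.Adj (netOf G τ).Γ n := by
  classical
  have := Fintype.ofFinite V
  intro w Z hwZ hT Q U h1 h2 h3 h4
  by_contra hlt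
  push Not at hlt
  let T : Finset (Fin t) := univ.filter fun v => v ≠ w ∧ v ∉ Z
  let T1 : Finset (Fin t) := T.filter fun v => G.Adj (τ w) (τ v)
  let Q' : Finset ({x : V // x ∉ Set.range τ} ⊕ {e : Sym2 (Fin t) // ∃ a b, e = s(a, b) ∧ G.Adj (τ a) (τ b)}) := Q
  let QV : Finset V := Q'.toLeft.map ⟨Subtype.val, Subtype.val_injective⟩
  have hQV : ∀ (x : V) (hx : x ∉ Set.range τ), x ∈ QV ↔ (Sum.inl ⟨x, hx⟩ : (netOf G τ).R) ∈ Q := by
    intro x hx
    simp only [QV, Finset.mem_map, Finset.mem_toLeft, Function.Embedding.coeFn_mk]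
    constructor
    · rintro ⟨y, hy, rfl⟩
      exact hy
    · intro h
      exact ⟨⟨x, hx⟩, h, rfl⟩
  have hQVτ : ∀ v, τ v ∉ QV := by
    intro v hv
    simp only [QV, Finset.mem_map, Function.Embedding.coeFn_mk] at hv
    obtain ⟨y, _, hy⟩ := hv
    exact y.2 ⟨v, hy.symm⟩
  have hT1Q : QV.card + T1.card ≤ Q.card := by
    have e1 : QV.card = Q'.toLeft.card := Finset.card_map _
    have e2 : T1.card ≤ Q'.toRight.card := by
      have hinj : Set.InjOn (fun v => s(w, v)) (T1 : Set (Fin t)) := by
        intro v _ v' _ h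
        exact Sym2.congr_right.1 h
      rw [← Finset.card_image_of_injOn hinj, ← Finset.card_map ⟨Subtype.val, Subtype.val_injective⟩]
      refine Finset.card_le_card ?_
      intro e he
      obtain ⟨v, hv, rfl⟩ := Finset.mem_image.1 he
      have hvT := Finset.mem_filter.1 hv
      have hvT' := Finset.mem_filter.1 hvT.1
      refine Finset.mem_map.2 ⟨⟨s(w, v), w, v, rfl, hvT.2⟩, ?_, rfl⟩
      rw [Finset.mem_toRight]
      by_contra hnQ
      have hU : (Sum.inr ⟨s(w, v), w, v, rfl, hvT.2⟩ : (netOf G τ).R) ∈ U :=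
        h1 _ (show w ∈ s(w, v) by simp) hnQ
      exact h4 _ hU v hvT'.2.1 hvT'.2.2 (show v ∈ s(w, v) by simp)
    have e3 := Finset.card_toLeft_add_card_toRight (u := Q')
    have e4 : Q'.card = Q.card := rfl
    omega
  -- the closed set
  let C : Set V := {x | x = τ w ∨ ∃ hx : x ∉ Set.range τ, (Sum.inl ⟨x, hx⟩ : (netOf G τ).R) ∈ U}
  have hadj : ∀ (x y : V) (hx : x ∉ Set.range τ) (hy : y ∉ Set.range τ), G.Adj x y →
      (netOf G τ).adj.Adj (Sum.inl ⟨x, hx⟩) (Sum.inl ⟨y, hy⟩) := by
    intro x y hx hy h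
    exact ⟨fun h' => h.ne (by injection h' with h'; injection h'), Or.inl h⟩
  have hclosed : ∀ X : Finset V, QV ⊆ X → (∀ v ∈ T, G.Adj (τ w) (τ v) → τ v ∈ X) →
      (∀ v ∈ Z, τ v ∈ X) → ∀ x ∈ C, x ∉ X → ∀ y, G.Adj x y → y ∉ X → y ∈ C := by
    intro X hQX hTX hZX x hx hxX y hxy hyX
    by_cases hy : y ∈ Set.range τ
    · obtain ⟨v, rfl⟩ := hy
      by_cases hvw : v = w
      · subst hvw
        exact Or.inl rfl
      · have hvZ : v ∉ Z := fun h => hyX (hZX v h)
        have hvT : v ∈ T := Finset.mem_filter.2 ⟨Finset.mem_univ _, hvw, hvZ⟩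
        rcases hx with rfl | ⟨hx, hxU⟩
        · exact absurd (hTX v hvT hxy) hyX
        · exact absurd (show G.Adj (τ v) x from hxy.symm) (h4 _ hxU v hvw hvZ)
    · have hyQ : (Sum.inl ⟨y, hy⟩ : (netOf G τ).R) ∉ Q := fun h => hyX (hQX ((hQV y hy).2 h))
      rcases hx with rfl | ⟨hx, hxU⟩
      · exact Or.inr ⟨hy, h1 _ (show G.Adj (τ w) y from hxy) hyQ⟩
      · exact Or.inr ⟨hy, h3 _ hxU _ (hadj x y hx hy hxy) hyQ⟩
  have hwC : τ w ∈ C := Or.inl rfl
  by_cases hA : ∃ u ∈ T, u ∉ T1
  · obtain ⟨u, hu, hu1⟩ := hA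
    let X : Finset V := QV ∪ Z.image τ ∪ T1.image τ
    have hXc : X.card < n := by
      change (QV ∪ Z.image τ ∪ T1.image τ).card < n
      have := Finset.card_union_le (QV ∪ Z.image τ) (T1.image τ)
      have := Finset.card_union_le QV (Z.image τ)
      have := Finset.card_image_le (s := Z) (f := τ)
      have := Finset.card_image_le (s := T1) (f := τ)
      omega
    have huT := Finset.mem_filter.1 hu
    have hτX : ∀ v, τ v ∈ X → v ∈ Z ∨ v ∈ T1 := by
      intro v hv
      rcases Finset.mem_union.1 hv with hv | hv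
      · rcases Finset.mem_union.1 hv with hv | hv
        · exact absurd hv (hQVτ v)
        · obtain ⟨v', hv', h⟩ := Finset.mem_image.1 hv
          exact Or.inl (hτ h ▸ hv')
      · obtain ⟨v', hv', h⟩ := Finset.mem_image.1 hv
        exact Or.inr (hτ h ▸ hv')
    have hwX : τ w ∉ X := by
      intro h
      rcases hτX w h with h | h
      · exact hwZ h
      · exact (Finset.mem_filter.1 (Finset.mem_filter.1 h).1).2.1 rfl
    have huX : τ u ∉ X := by
      intro h
      rcases hτX u h with h | h
      · exact huT.2.2 h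
      · exact hu1 h
    have := conn_closed (X := (↑X : Set V)) (hG X hXc) C hwC (by simpa using hwX)
      (fun x hx hxX y hxy hyX => hclosed X (fun x hx => by simp [X, hx])
        (fun v hv hvw => Finset.mem_union_right _ (Finset.mem_image_of_mem _ (Finset.mem_filter.2 ⟨hv, hvw⟩)))
        (fun v hv => Finset.mem_union_left _ (Finset.mem_union_right _ (Finset.mem_image_of_mem _ hv)))
        x hx (by simpa using hxX) y hxy (by simpa using hyX)) (τ u) (by simpa using huX)
    rcases this with h | ⟨h, _⟩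
    · exact huT.2.1 (hτ h)
    · exact h ⟨u, rfl⟩
  · push Not at hA
    obtain ⟨v, hvw, hvZ⟩ := hT
    have hvT : v ∈ T := Finset.mem_filter.2 ⟨Finset.mem_univ _, hvw, hvZ⟩
    have hvT1 := hA v hvT
    let X : Finset V := QV ∪ Z.image τ ∪ (T1.erase v).image τ
    have hXc : X.card + 1 < n := by
      change (QV ∪ Z.image τ ∪ (T1.erase v).image τ).card + 1 < n
      have := Finset.card_union_le (QV ∪ Z.image τ) ((T1.erase v).image τ)
      have := Finset.card_union_le QV (Z.image τ)
      have := Finset.card_image_le (s := Z) (f := τ)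
      have := Finset.card_image_le (s := T1.erase v) (f := τ)
      have := Finset.card_erase_of_mem hvT1
      have := Finset.card_pos.2 ⟨v, hvT1⟩
      omega
    have hX1 : (insert (τ v) X).card < n := lt_of_le_of_lt (Finset.card_insert_le _ _) hXc
    have hX2 : (insert (τ w) X).card < n := lt_of_le_of_lt (Finset.card_insert_le _ _) hXc
    have hτX : ∀ v', τ v' ∈ X → v' ∈ Z ∨ v' ∈ T1.erase v := by
      intro v hv
      rcases Finset.mem_union.1 hv with hv | hv
      · rcases Finset.mem_union.1 hv with hv | hv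
        · exact absurd hv (hQVτ v)
        · obtain ⟨v', hv', h⟩ := Finset.mem_image.1 hv
          exact Or.inl (hτ h ▸ hv')
      · obtain ⟨v', hv', h⟩ := Finset.mem_image.1 hv
        exact Or.inr (hτ h ▸ hv')
    have hwX : τ w ∉ X := by
      intro h
      rcases hτX w h with h | h
      · exact hwZ h
      · exact (Finset.mem_filter.1 (Finset.mem_filter.1 (Finset.mem_of_mem_erase h)).1).2.1 rfl
    have hvX : τ v ∉ X := by
      intro h
      rcases hτX v h with h | h
      · exact hvZ h
      · exact (Finset.notMem_erase v T1) h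
    have hQX : QV ⊆ X := fun x hx => by simp [X, hx]
    have hZX : ∀ v ∈ Z, τ v ∈ X := fun v hv =>
      Finset.mem_union_left _ (Finset.mem_union_right _ (Finset.mem_image_of_mem _ hv))
    have hTX : ∀ v' ∈ T, v' ≠ v → τ v' ∈ X := fun v' hv' hne =>
      Finset.mem_union_right _ (Finset.mem_image_of_mem _ (Finset.mem_erase.2 ⟨hne, hA v' hv'⟩))
    have hwv : w ≠ v := fun h => hvw h.symm
    have hw1 : τ w ∉ insert (τ v) X := by
      rw [Finset.mem_insert, not_or]
      exact ⟨fun h => hwv (hτ h), hwX⟩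
    have hv2 : τ v ∉ insert (τ w) X := by
      rw [Finset.mem_insert, not_or]
      exact ⟨fun h => hvw (hτ h), hvX⟩
    have hall := conn_closed (X := (↑(insert (τ v) X) : Set V)) (hG _ hX1) C hwC
      (by rw [Finset.mem_coe]; exact hw1)
      (fun x hx hxX y hxy hyX => hclosed (insert (τ v) X) (fun x hx => Finset.mem_insert_of_mem (hQX hx))
        (fun v' hv' _ => by
          by_cases h : v' = v
          · rw [h]; exact Finset.mem_insert_self _ _
          · exact Finset.mem_insert_of_mem (hTX v' hv' h))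
        (fun v hv => Finset.mem_insert_of_mem (hZX v hv))
        x hx (by rw [Finset.mem_coe] at hxX; exact hxX) y hxy (by rw [Finset.mem_coe] at hyX; exact hyX))
    have hall2 := conn_closed (X := (↑(insert (τ w) X) : Set V)) (hG _ hX2) {τ v} rfl
      (by rw [Finset.mem_coe]; exact hv2)
      (by
        intro x hx _ y hxy hyX
        rw [Set.mem_singleton_iff] at hx
        subst hx
        rw [Finset.mem_coe, Finset.mem_insert, not_or] at hyX
        by_contra hne
        have hy : y ∉ insert (τ v) X := by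
          rw [Finset.mem_insert, not_or]
          exact ⟨hne, hyX.2⟩
        rcases hall y (by rw [Finset.mem_coe]; exact hy) with h | ⟨h, hU⟩
        · exact hyX.1 h
        · exact h4 _ hU v hvw hvZ hxy)
    have hVX : (Finset.univ : Finset V) ⊆ insert (τ v) (insert (τ w) X) := by
      intro y _
      by_cases hy : y ∈ insert (τ w) X
      · exact Finset.mem_insert_of_mem hy
      · rw [Finset.mem_insert]
        exact Or.inl (hall2 y (by rw [Finset.mem_coe]; exact hy))
    have := Finset.card_le_card hVX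
    rw [Finset.card_univ, ← Nat.card_eq_fintype_card] at this
    have := Finset.card_insert_le (τ v) (insert (τ w) X)
    have := Finset.card_insert_le (τ w) X
    omega

/-- The general exchange property for the net of a highly connected graph. -/
theorem GXG (t k : ℕ) (V : Type) [Finite V] (G : SimpleGraph V) (τ : Fin t → V)
    (hτ : Function.Injective τ) (hV : k * (t - 1) + 1 ≤ Nat.card V)
    (hG : ∀ X : Finset V, X.card < k * (t - 1) → (G.induce ((↑X : Set V)ᶜ)).Connected) :
    HG.GX t k (netOf G τ).Real := by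
  classical
  have := (netOf G τ).fin
  have := Fintype.ofFinite (netOf G τ).R
  exact gx _ (sp_netOf G τ hτ hV hG)

end Pool.Agent.H63.Hager
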