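import Mathlib
import Pool.Graph.R_pool_sql_team_seeded_620a6dc7.Helper944_HC.Menger

set_option autoImplicit false
set_option linter.unusedSectionVars false

namespace Pool.Agent.H63.Hager

open Pool.Agent.Helper944_HC

variable {α τ : Type} [Fintype α] [DecidableEq α] [DecidableEq τ]

/-- A segment from terminal `a` to terminal `b`: a path of `r` from a neighbour of `a` to a
neighbour of `b`. -/
def Seg (r : α → α → Prop) (N : τ → Set α) (a b : τ) (l : List α) : Prop :=
  IsP r Finset.univ (N a) (N b) l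

theorem Seg.symm {r : α → α → Prop} (hr : ∀ x y, r x y → r y x) {N : τ → Set α} {a b : τ}
    {l : List α} (h : Seg r N a b l) : Seg r N b a l.reverse := by
  refine ⟨List.nodup_reverse.2 h.nodup, ?_, by simp, ?_, ?_⟩
  · rw [List.isChain_reverse]
    exact h.chain.imp (fun _ _ => hr _ _)
  · obtain ⟨y, hy, hb⟩ := h.last
    exact ⟨y, by rw [List.head?_reverse]; exact hy, hb⟩
  · obtain ⟨y, hy, hb⟩ := h.head
    exact ⟨y, by rw [List.getLast?_reverse]; exact hy, hb⟩

theorem Seg.ne_nil {r : α → α → Prop} {N : τ → Set α} {a b : τ}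
    {l : List α} (h : Seg r N a b l) : l ≠ [] := by
  obtain ⟨y, hy, _⟩ := h.head
  rintro rfl
  simp at hy

/-- A segment for the unordered pair `z`. -/
def SegZ (r : α → α → Prop) (N : τ → Set α) (z : Sym2 τ) (l : List α) : Prop :=
  ∃ a b, a ≠ b ∧ z = s(a, b) ∧ Seg r N a b l

/-- The multigraph `h` on the terminals is realised by disjoint segments. -/
def Real (r : α → α → Prop) (N : τ → Set α) (h : Multiset (Sym2 τ)) : Prop :=
  ∃ (ι : Type) (_ : Fintype ι) (lab : ι → Sym2 τ) (l : ι → List α),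
    (∀ i, SegZ r N (lab i) (l i)) ∧ (∀ i j, i ≠ j → List.Disjoint (l i) (l j)) ∧
    h = ∑ i, {lab i}

theorem perm_map_lift {β γ : Type} (f : β → γ) : ∀ (M : List γ) (L : List β),
    M.Perm (L.map f) → ∃ L' : List β, L'.Perm L ∧ L'.map f = M := by
  intro M
  induction M with
  | nil =>
    intro L h
    have h1 : L.map f = [] := h.symm.eq_nil
    have h2 : L = [] := List.map_eq_nil_iff.1 h1
    exact ⟨[], h2 ▸ List.Perm.refl _, rfl⟩
  | cons a M ih =>
    intro L h
    have ha : a ∈ L.map f := h.subset (List.mem_cons_self)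
    obtain ⟨x, hx, rfl⟩ := List.mem_map.1 ha
    obtain ⟨s, t, rfl⟩ := List.append_of_mem hx
    have h1 : (s ++ x :: t).Perm (x :: (s ++ t)) := List.perm_middle
    have h2 : (f x :: M).Perm (f x :: (s ++ t).map f) := h.trans (by simpa using h1.map f)
    obtain ⟨L', h3, h4⟩ := ih (s ++ t) ((List.perm_cons _).1 h2)
    exact ⟨x :: L', (h3.cons x).trans h1.symm, by simp [h4]⟩

theorem map_le_lift {β γ : Type} (f : β → γ) (s : Multiset β) (t : Multiset γ)
    (h : t ≤ s.map f) : ∃ s' ≤ s, s'.map f = t := by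
  obtain ⟨g, hg⟩ := Multiset.le_iff_exists_add.1 h
  have e : ((t.toList ++ g.toList : List γ) : Multiset γ) = ((s.toList.map f : List γ) : Multiset γ) := by
    rw [← Multiset.coe_add, Multiset.coe_toList, Multiset.coe_toList, ← Multiset.map_coe,
      Multiset.coe_toList, hg]
  obtain ⟨L', h3, h4⟩ := perm_map_lift f _ _ (Multiset.coe_eq_coe.1 e)
  obtain ⟨L1, L2, rfl, h5, h6⟩ := List.map_eq_append_iff.1 h4
  refine ⟨(L1 : Multiset β), ?_, by rw [Multiset.map_coe, h5, Multiset.coe_toList]⟩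
  have : ((L1 ++ L2 : List β) : Multiset β) = s := by
    rw [Multiset.coe_eq_coe.2 h3, Multiset.coe_toList]
  rw [← this, ← Multiset.coe_add]
  exact Multiset.le_add_right _ _

theorem Real.mono {r : α → α → Prop} {N : τ → Set α} {h h' : Multiset (Sym2 τ)} (hle : h' ≤ h)
    (H : Real r N h) : Real r N h' := by
  classical
  obtain ⟨ι, _, lab, l, h1, h2, rfl⟩ := H
  have e : (∑ i, {lab i} : Multiset (Sym2 τ)) = (Finset.univ : Finset ι).val.map lab := by
    rw [← Multiset.sum_map_singleton ((Finset.univ : Finset ι).val.map lab)]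
    rw [Multiset.map_map]
    rfl
  rw [e] at hle
  obtain ⟨s', hs', rfl⟩ := map_le_lift _ _ _ hle
  have hnd : s'.Nodup := Multiset.nodup_of_le hs' (Finset.univ : Finset ι).nodup
  let S : Finset ι := ⟨s', hnd⟩
  refine ⟨S, inferInstance, fun i => lab i, fun i => l i, fun i => h1 _, fun i j hij =>
    h2 _ _ (fun hh => hij (Subtype.ext hh)), ?_⟩
  rw [Finset.sum_coe_sort S (fun i => ({lab i} : Multiset (Sym2 τ)))]
  rw [← Multiset.sum_map_singleton (s'.map lab), Multiset.map_map]
  rfl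

/-- separation property -/
def SP (r : α → α → Prop) (N : τ → Set α) (n : ℕ) : Prop :=
  ∀ (w : τ) (Z : Finset τ), w ∉ Z → (∃ v, v ≠ w ∧ v ∉ Z) →
    ∀ (Q U : Finset α), (∀ x ∈ N w, x ∉ Q → x ∈ U) → (∀ x ∈ U, x ∉ Q) →
      (∀ x ∈ U, ∀ y, r x y → y ∉ Q → y ∈ U) →
      (∀ x ∈ U, ∀ v, v ≠ w → v ∉ Z → x ∉ N v) → n ≤ Q.card + Z.card

end Pool.Agent.H63.Hager
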