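import Pool.Agent.H63.Hager.Basic

set_option autoImplicit false
set_option linter.unusedSectionVars false

namespace Pool.Agent.H63.Hager

open Pool.Agent.Helper944_HC

variable {α τ : Type} [Fintype α] [DecidableEq α] [Fintype τ] [DecidableEq τ]
variable {I K J : Type} [Fintype I] [DecidableEq I] [Fintype K] [DecidableEq K] [Fintype J]
  [DecidableEq J]

/-- the arcs of the auxiliary digraph -/
def arc (r : α → α → Prop) (N : τ → Set α) (XF : Set α) (o : I → τ) (kv : K → τ) :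
    α ⊕ (I ⊕ (K ⊕ J)) → α ⊕ (I ⊕ (K ⊕ J)) → Prop
  | .inl x, .inl y => r x y ∧ x ∉ XF
  | .inl x, .inr (.inl i) => x ∈ N (o i) ∧ x ∉ XF
  | .inl x, .inr (.inr (.inl c)) => x ∈ N (kv c) ∧ x ∉ XF
  | .inl x, .inr (.inr (.inr _)) => x ∈ XF
  | .inr (.inr (.inl _)), .inr (.inr (.inr _)) => True
  | _, _ => False

/-- sinks -/
def sinks : Set (α ⊕ (I ⊕ (K ⊕ J))) :=
  {b | (∃ i, b = .inr (.inl i)) ∨ ∃ j, b = .inr (.inr (.inr j))}

theorem chain_closed {r : α → α → Prop} {P : α → Prop} : ∀ l : List α, l.IsChain r →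
    (∀ x, l.head? = some x → P x) → (∀ x ∈ l, ∀ y ∈ l, P x → r x y → P y) → ∀ x ∈ l, P x := by
  intro l
  induction l with
  | nil => intro _ _ _ x hx; cases hx
  | cons a l ih =>
    intro hc hh hcl x hx
    have ha : P a := hh a rfl
    rcases List.mem_cons.1 hx with rfl | hx
    · exact ha
    · refine ih hc.of_cons ?_ (fun x hx y hy => hcl x (List.mem_cons_of_mem _ hx) y
        (List.mem_cons_of_mem _ hy)) x hx
      intro y hy
      cases l with
      | nil => cases hy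
      | cons b l =>
        simp only [List.head?_cons, Option.some.injEq] at hy
        subst hy
        exact hcl a (by simp) b (by simp) ha hc.rel

theorem conn_route {r : α → α → Prop} {N : τ → Set α} {n : ℕ} (hSP : SP r N n) (w : τ)
    (XF : Set α) (o : I → τ) (kv : K → τ) (hcov : ∀ v, v ≠ w → (∃ i, o i = v) ∨ ∃ c, kv c = v)
    (ho : ∀ i, o i ≠ w) (hk : ∀ c, kv c ≠ w)
    (hIK : n ≤ Fintype.card I + Fintype.card K) (hIJ : n = Fintype.card I + Fintype.card J)
    (q0 : I → List α) (hq0 : ∀ i, Seg r N w (o i) (q0 i))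
    (hqd : ∀ i j, i ≠ j → List.Disjoint (q0 i) (q0 j)) (hqX : ∀ i, ∀ x ∈ q0 i, x ∉ XF) :
    Conn (arc (J := J) r N XF o kv) Finset.univ (Sum.inl '' N w) sinks n := by
  classical
  intro S _ hcard U hU hX hCl
  by_contra hno
  push Not at hno
  have hUS : ∀ b ∈ U, b ∉ S := fun b hb => (Finset.mem_sdiff.1 (hU hb)).2
  have hcl : ∀ b ∈ U, ∀ b', arc (J := J) r N XF o kv b b' → b' ∉ S → b' ∈ U := fun b hb b' h h' =>
    hCl b hb b' (by simp [h']) h
  by_cases hj : ∃ j0 : J, (Sum.inr (Sum.inr (Sum.inr j0)) : α ⊕ (I ⊕ (K ⊕ J))) ∉ S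
  · obtain ⟨j0, hj0⟩ := hj
    let Q : Finset α := Finset.univ.filter fun x => (Sum.inl x : α ⊕ (I ⊕ (K ⊕ J))) ∈ S
    let U' : Finset α := Finset.univ.filter fun x => (Sum.inl x : α ⊕ (I ⊕ (K ⊕ J))) ∈ U
    let Z : Finset τ := Finset.univ.filter fun v => v ≠ w ∧
      (∀ i, o i = v → (Sum.inr (Sum.inl i) : α ⊕ (I ⊕ (K ⊕ J))) ∈ S) ∧
      ∀ c, kv c = v → (Sum.inr (Sum.inr (Sum.inl c)) : α ⊕ (I ⊕ (K ⊕ J))) ∈ S
    have hXF : ∀ x ∈ U', x ∉ XF := by
      intro x hx hxX
      have hx' : (Sum.inl x : α ⊕ (I ⊕ (K ⊕ J))) ∈ U := (Finset.mem_filter.1 hx).2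
      have := hcl _ hx' (Sum.inr (Sum.inr (Sum.inr j0))) hxX hj0
      exact hno _ this (Or.inr ⟨j0, rfl⟩)
    by_cases hZ : ∃ v, v ≠ w ∧ v ∉ Z
    · have h1 : n ≤ Q.card + Z.card := by
        refine hSP w Z (by simp [Z]) hZ Q U' ?_ ?_ ?_ ?_
        · intro x hx hxQ
          have hxS : (Sum.inl x : α ⊕ (I ⊕ (K ⊕ J))) ∉ S := fun h => hxQ (by simp [Q, h])
          have := hX (Sum.inl x) (by simp [hxS]) ⟨x, hx, rfl⟩
          simp [U', this]
        · intro x hx hxQ
          exact hUS _ (Finset.mem_filter.1 hx).2 (Finset.mem_filter.1 hxQ).2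
        · intro x hx y hxy hyQ
          have hyS : (Sum.inl y : α ⊕ (I ⊕ (K ⊕ J))) ∉ S := fun h => hyQ (by simp [Q, h])
          have := hcl _ (Finset.mem_filter.1 hx).2 (Sum.inl y) ⟨hxy, hXF x hx⟩ hyS
          simp [U', this]
        · intro x hx v hvw hvZ hxv
          have hx' : (Sum.inl x : α ⊕ (I ⊕ (K ⊕ J))) ∈ U := (Finset.mem_filter.1 hx).2
          have hvZ' : ¬ ((∀ i, o i = v → (Sum.inr (Sum.inl i) : α ⊕ (I ⊕ (K ⊕ J))) ∈ S) ∧
            ∀ c, kv c = v → (Sum.inr (Sum.inr (Sum.inl c)) : α ⊕ (I ⊕ (K ⊕ J))) ∈ S) := by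
            intro h
            exact hvZ (by simp only [Z, Finset.mem_filter, Finset.mem_univ, true_and]; exact ⟨hvw, h⟩)
          rw [not_and_or] at hvZ'
          push Not at hvZ'
          rcases hvZ' with ⟨i, hi, hiS⟩ | ⟨c, hc, hcS⟩
          · have := hcl _ hx' (Sum.inr (Sum.inl i)) ⟨hi ▸ hxv, hXF x hx⟩ hiS
            exact hno _ this (Or.inl ⟨i, rfl⟩)
          · have := hcl _ hx' (Sum.inr (Sum.inr (Sum.inl c))) ⟨hc ▸ hxv, hXF x hx⟩ hcS
            have := hcl _ this (Sum.inr (Sum.inr (Sum.inr j0))) trivial hj0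
            exact hno _ this (Or.inr ⟨j0, rfl⟩)
      have h2 : Q.card + Z.card ≤ S.card := by
        have hch : ∀ v ∈ Z, ∃ b : α ⊕ (I ⊕ (K ⊕ J)), b ∈ S ∧ ((∃ i, b = Sum.inr (Sum.inl i) ∧ o i = v) ∨
            ∃ c, b = Sum.inr (Sum.inr (Sum.inl c)) ∧ kv c = v) := by
          intro v hv
          obtain ⟨hvw, h3, h4⟩ := (Finset.mem_filter.1 hv).2
          rcases hcov v hvw with ⟨i, hi⟩ | ⟨c, hc⟩
          · exact ⟨_, h3 i hi, Or.inl ⟨i, rfl, hi⟩⟩
          · exact ⟨_, h4 c hc, Or.inr ⟨c, rfl, hc⟩⟩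
        have : Nonempty (α ⊕ (I ⊕ (K ⊕ J))) := ⟨Sum.inr (Sum.inr (Sum.inr j0))⟩
        choose! g hg using hch
        have hinj : Set.InjOn g Z := by
          intro v hv v' hv' h
          rcases (hg v hv).2 with ⟨i, hi, rfl⟩ | ⟨c, hc, rfl⟩
          · rcases (hg v' hv').2 with ⟨i', hi', rfl⟩ | ⟨c', hc', rfl⟩
            · rw [hi, hi'] at h; cases h; rfl
            · rw [hi, hc'] at h; cases h
          · rcases (hg v' hv').2 with ⟨i', hi', rfl⟩ | ⟨c', hc', rfl⟩
            · rw [hc, hi'] at h; cases h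
            · rw [hc, hc'] at h; cases h; rfl
        have hdis : Disjoint (Q.image Sum.inl) (Z.image g) := by
          rw [Finset.disjoint_left]
          intro b hb hb'
          obtain ⟨x, _, rfl⟩ := Finset.mem_image.1 hb
          obtain ⟨v, hv, hv'⟩ := Finset.mem_image.1 hb'
          rcases (hg v hv).2 with ⟨i, hi, _⟩ | ⟨c, hc, _⟩
          · rw [hi] at hv'; cases hv'
          · rw [hc] at hv'; cases hv'
        have hsub : Q.image Sum.inl ∪ Z.image g ⊆ S := by
          intro b hb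
          rcases Finset.mem_union.1 hb with hb | hb
          · obtain ⟨x, hx, rfl⟩ := Finset.mem_image.1 hb
            exact (Finset.mem_filter.1 hx).2
          · obtain ⟨v, hv, rfl⟩ := Finset.mem_image.1 hb
            exact (hg v hv).1
        calc Q.card + Z.card = (Q.image Sum.inl : Finset (α ⊕ (I ⊕ (K ⊕ J)))).card + (Z.image g).card := by
              rw [Finset.card_image_of_injective _ Sum.inl_injective, Finset.card_image_of_injOn hinj]
          _ = (Q.image Sum.inl ∪ Z.image g).card := (Finset.card_union_of_disjoint hdis).symm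
          _ ≤ S.card := Finset.card_le_card hsub
      omega
    · push Not at hZ
      have h3 : Fintype.card I + Fintype.card K ≤ S.card := by
        let g : I ⊕ K → α ⊕ (I ⊕ (K ⊕ J)) := fun z => match z with
          | .inl i => Sum.inr (Sum.inl i)
          | .inr c => Sum.inr (Sum.inr (Sum.inl c))
        have hinj : Function.Injective g := by
          rintro (i | c) (i' | c') h <;> simp only [g] at h <;> cases h <;> rfl
        rw [← Fintype.card_sum, ← Finset.card_univ, ← Finset.card_image_of_injective _ hinj]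
        refine Finset.card_le_card ?_
        intro b hb
        obtain ⟨z, _, rfl⟩ := Finset.mem_image.1 hb
        rcases z with i | c
        · exact (Finset.mem_filter.1 (hZ (o i) (ho i))).2.2.1 i rfl
        · exact (Finset.mem_filter.1 (hZ (kv c) (hk c))).2.2.2 c rfl
      omega
  · push Not at hj
    have hex : ∀ i, ∃ b ∈ S, b = (Sum.inr (Sum.inl i) : α ⊕ (I ⊕ (K ⊕ J))) ∨
        ∃ x ∈ q0 i, b = Sum.inl x := by
      intro i
      by_contra hcon
      push Not at hcon
      have hi : (Sum.inr (Sum.inl i) : α ⊕ (I ⊕ (K ⊕ J))) ∉ S := fun h => (hcon _ h).1 rfl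
      have hx : ∀ x ∈ q0 i, (Sum.inl x : α ⊕ (I ⊕ (K ⊕ J))) ∉ S := fun x hx h =>
        (hcon _ h).2 x hx rfl
      have hall : ∀ x ∈ q0 i, (Sum.inl x : α ⊕ (I ⊕ (K ⊕ J))) ∈ U := by
        refine chain_closed (P := fun x => (Sum.inl x : α ⊕ (I ⊕ (K ⊕ J))) ∈ U) (q0 i)
          (hq0 i).chain ?_ ?_
        · intro x hxh
          obtain ⟨y, hy, hyw⟩ := (hq0 i).head
          rw [hxh] at hy
          cases hy
          exact hX _ (by simpa using hx x (List.mem_of_head? hxh)) ⟨x, hyw, rfl⟩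
        · intro x hx1 y hy1 hxU hxy
          exact hcl _ hxU (Sum.inl y) ⟨hxy, hqX i x hx1⟩ (hx y hy1)
      obtain ⟨y, hy, hyo⟩ := (hq0 i).last
      have hyi : y ∈ q0 i := List.mem_of_getLast? hy
      exact hno _ (hcl _ (hall y hyi) (Sum.inr (Sum.inl i)) ⟨hyo, hqX i y hyi⟩ hi) (Or.inl ⟨i, rfl⟩)
    choose g hgS hg using hex
    have h3 : Fintype.card I + Fintype.card J ≤ S.card := by
      let g' : I ⊕ J → α ⊕ (I ⊕ (K ⊕ J)) := fun z => match z with
        | .inl i => g i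
        | .inr c => Sum.inr (Sum.inr (Sum.inr c))
      have hinj : Function.Injective g' := by
        rintro (i | c) (i' | c') h <;> simp only [g'] at h
        · rcases hg i with h1 | ⟨x, hx, h1⟩ <;> rcases hg i' with h2 | ⟨x', hx', h2⟩ <;>
            rw [h1, h2] at h
          · cases h; rfl
          · cases h
          · cases h
          · cases h
            by_contra hne
            exact hqd i i' (fun h => hne (by rw [h])) hx hx'
        · rcases hg i with h1 | ⟨x, hx, h1⟩ <;> rw [h1] at h <;> cases h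
        · rcases hg i' with h1 | ⟨x, hx, h1⟩ <;> rw [h1] at h <;> cases h
        · cases h; rfl
      rw [← Fintype.card_sum, ← Finset.card_univ, ← Finset.card_image_of_injective _ hinj]
      refine Finset.card_le_card ?_
      intro b hb
      obtain ⟨z, _, rfl⟩ := Finset.mem_image.1 hb
      rcases z with i | c
      · exact hgS i
      · exact hj c
    omega

theorem decomp (r : α → α → Prop) (N : τ → Set α) (XF : Set α) (o : I → τ) (kv : K → τ) :
    ∀ (L : List (α ⊕ (I ⊕ (K ⊕ J)))) (x : α), (Sum.inl x :: L).IsChain (arc r N XF o kv) →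
      (∃ y, (Sum.inl x :: L).getLast? = some y ∧ y ∈ sinks) →
      ∃ p : List α, p.IsChain r ∧ p.head? = some x ∧ (∀ y ∈ p.dropLast, y ∉ XF) ∧
        ∃ z, p.getLast? = some z ∧
          ((∃ i, z ∉ XF ∧ z ∈ N (o i) ∧ Sum.inl x :: L = p.map Sum.inl ++ [Sum.inr (Sum.inl i)]) ∨
           (∃ j, z ∈ XF ∧ Sum.inl x :: L = p.map Sum.inl ++ [Sum.inr (Sum.inr (Sum.inr j))]) ∨
           (∃ c j, z ∉ XF ∧ z ∈ N (kv c) ∧ Sum.inl x :: L = p.map Sum.inl ++
              [Sum.inr (Sum.inr (Sum.inl c)), Sum.inr (Sum.inr (Sum.inr j))])) := by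
  intro L
  induction L with
  | nil =>
    rintro x - ⟨y, hy, hs⟩
    simp only [List.getLast?_singleton, Option.some.injEq] at hy
    subst hy
    rcases hs with ⟨i, hi⟩ | ⟨i, hi⟩ <;> cases hi
  | cons b L ih =>
    intro x hc hl
    obtain ⟨hb, hc'⟩ := List.isChain_cons_cons.1 hc
    have hl' : ∃ y, (b :: L).getLast? = some y ∧ y ∈ sinks := by
      simpa [List.getLast?_cons_cons] using hl
    rcases b with y | i | c | j
    · obtain ⟨p, hp1, hp2, hp3, z, hz, hz'⟩ := ih y hc' hl'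
      cases p with
      | nil => cases hp2
      | cons y' p =>
        simp only [List.head?_cons, Option.some.injEq] at hp2
        subst hp2
        refine ⟨x :: y' :: p, List.isChain_cons_cons.2 ⟨hb.1, hp1⟩, rfl, ?_, z, by
          simpa [List.getLast?_cons_cons] using hz, ?_⟩
        · intro v hv
          rw [List.dropLast_cons_of_ne_nil (by simp)] at hv
          rcases List.mem_cons.1 hv with rfl | hv
          · exact hb.2
          · exact hp3 v hv
        · rcases hz' with ⟨i, h1, h2, h3⟩ | ⟨j, h1, h3⟩ | ⟨c, j, h1, h2, h3⟩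
          · exact Or.inl ⟨i, h1, h2, by rw [h3]; simp⟩
          · exact Or.inr (Or.inl ⟨j, h1, by rw [h3]; simp⟩)
          · exact Or.inr (Or.inr ⟨c, j, h1, h2, by rw [h3]; simp⟩)
    · cases L with
      | nil => exact ⟨[x], by simp, rfl, by simp, x, rfl, Or.inl ⟨i, hb.2, hb.1, rfl⟩⟩
      | cons b' L =>
        have := (List.isChain_cons_cons.1 hc').1
        rcases b' with _ | _ | _ | _ <;> exact absurd this id
    · cases L with
      | nil =>
        obtain ⟨y, hy, hs⟩ := hl'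
        simp only [List.getLast?_singleton, Option.some.injEq] at hy
        subst hy
        rcases hs with ⟨i, hi⟩ | ⟨i, hi⟩ <;> cases hi
      | cons b' L =>
        have h1 := List.isChain_cons_cons.1 hc'
        rcases b' with _ | _ | _ | j
        · exact absurd h1.1 id
        · exact absurd h1.1 id
        · exact absurd h1.1 id
        · cases L with
          | nil => exact ⟨[x], by simp, rfl, by simp, x, rfl, Or.inr (Or.inr ⟨c, j, hb.2, hb.1, rfl⟩)⟩
          | cons b'' L =>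
            have := (List.isChain_cons_cons.1 h1.2).1
            rcases b'' with _ | _ | _ | _ <;> exact absurd this id
    · cases L with
      | nil => exact ⟨[x], by simp, rfl, by simp, x, rfl, Or.inr (Or.inl ⟨j, hb, rfl⟩)⟩
      | cons b' L =>
        have := (List.isChain_cons_cons.1 hc').1
        rcases b' with _ | _ | _ | _ <;> exact absurd this id

/-- The rerouting theorem. -/
theorem route {r : α → α → Prop} {N : τ → Set α} {n : ℕ} (hSP : SP r N n) (w : τ)
    (XF : Set α) (o : I → τ) (kv : K → τ) (hcov : ∀ v, v ≠ w → (∃ i, o i = v) ∨ ∃ c, kv c = v)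
    (ho : ∀ i, o i ≠ w) (hk : ∀ c, kv c ≠ w)
    (hIK : n ≤ Fintype.card I + Fintype.card K) (hIJ : n = Fintype.card I + Fintype.card J)
    (q0 : I → List α) (hq0 : ∀ i, Seg r N w (o i) (q0 i))
    (hqd : ∀ i j, i ≠ j → List.Disjoint (q0 i) (q0 j)) (hqX : ∀ i, ∀ x ∈ q0 i, x ∉ XF) :
    ∃ (P : I ⊕ J → List α) (kd : J → Option K),
      (∀ z, (P z).Nodup ∧ (P z).IsChain r ∧ (∃ x, (P z).head? = some x ∧ x ∈ N w) ∧
        ∀ x ∈ (P z).dropLast, x ∉ XF) ∧
      (∀ z z', z ≠ z' → (P z).Disjoint (P z')) ∧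
      (∀ i, ∃ x, (P (.inl i)).getLast? = some x ∧ x ∉ XF ∧ x ∈ N (o i)) ∧
      (∀ j, kd j = none → ∃ x, (P (.inr j)).getLast? = some x ∧ x ∈ XF) ∧
      (∀ j c, kd j = some c → ∃ x, (P (.inr j)).getLast? = some x ∧ x ∉ XF ∧ x ∈ N (kv c)) ∧
      (∀ j j' c, kd j = some c → kd j' = some c → j = j') := by
  classical
  obtain ⟨M, hM, hMd⟩ := menger (conn_route (J := J) hSP w XF o kv hcov ho hk hIK hIJ q0 hq0 hqd hqX)
  have hdec : ∀ i, ∃ (p : List α) (s : I ⊕ J) (κ : Option K), p.IsChain r ∧ p.Nodup ∧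
      (∃ x, p.head? = some x ∧ x ∈ N w) ∧ (∀ y ∈ p.dropLast, y ∉ XF) ∧
      (∀ y ∈ p, (Sum.inl y : α ⊕ (I ⊕ (K ⊕ J))) ∈ M i) ∧
      (∀ i', s = .inl i' → Sum.inr (Sum.inl i') ∈ M i) ∧
      (∀ i', s = .inr i' → Sum.inr (Sum.inr (Sum.inr i')) ∈ M i) ∧
      (∀ c, κ = some c → Sum.inr (Sum.inr (Sum.inl c)) ∈ M i) ∧
      ∃ z, p.getLast? = some z ∧
        ((∃ i', s = .inl i' ∧ κ = none ∧ z ∉ XF ∧ z ∈ N (o i')) ∨
          (∃ j, s = .inr j ∧ κ = none ∧ z ∈ XF) ∨
          (∃ j c, s = .inr j ∧ κ = some c ∧ z ∉ XF ∧ z ∈ N (kv c))) := by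
    intro i
    obtain ⟨hnd, hch, _, ⟨x, hx, x', hx', rfl⟩, hla⟩ := hM i
    rcases hMi : M i with _ | ⟨b, L⟩
    · rw [hMi] at hx; cases hx
    · rw [hMi] at hx hch hla hnd
      simp only [List.head?_cons, Option.some.injEq] at hx
      subst hx
      obtain ⟨p, hp1, hp2, hp3, z, hz, hz'⟩ := decomp r N XF o kv L x' hch hla
      have hpn : ∀ T, Sum.inl x' :: L = p.map Sum.inl ++ T → p.Nodup := by
        intro T hT
        rw [hT] at hnd
        exact (List.nodup_append.1 hnd).1.of_map _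
      rcases hz' with ⟨i', h1, h2, h3⟩ | ⟨j, h1, h3⟩ | ⟨c, j, h1, h2, h3⟩
      · refine ⟨p, .inl i', none, hp1, hpn _ h3, ⟨x', hp2, hx'⟩, hp3, ?_, ?_, ?_, ?_, z, hz,
          Or.inl ⟨i', rfl, rfl, h1, h2⟩⟩
        · intro y hy; rw [h3]; simp [hy]
        · intro i'' h; cases h; rw [h3]; simp
        · intro i'' h; cases h
        · intro i'' h; cases h
      · refine ⟨p, .inr j, none, hp1, hpn _ h3, ⟨x', hp2, hx'⟩, hp3, ?_, ?_, ?_, ?_, z, hz,
          Or.inr (Or.inl ⟨j, rfl, rfl, h1⟩)⟩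
        · intro y hy; rw [h3]; simp [hy]
        · intro i'' h; cases h
        · intro i'' h; cases h; rw [h3]; simp
        · intro i'' h; cases h
      · refine ⟨p, .inr j, some c, hp1, hpn _ h3, ⟨x', hp2, hx'⟩, hp3, ?_, ?_, ?_, ?_, z, hz,
          Or.inr (Or.inr ⟨j, c, rfl, rfl, h1, h2⟩)⟩
        · intro y hy; rw [h3]; simp [hy]
        · intro i'' h; cases h
        · intro i'' h; cases h; rw [h3]; simp
        · intro i'' h; cases h; rw [h3]; simp
  choose p s κ h1 h2 h3 h4 h5 h6 h7 h8 z h9 h10 using hdec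
  have hsinj : Function.Injective s := by
    intro i j hij
    by_contra hne
    rcases hs : s i with i' | i'
    · exact hMd i j hne _ (h6 i i' hs) (h6 j i' (hij ▸ hs))
    · exact hMd i j hne _ (h7 i i' hs) (h7 j i' (hij ▸ hs))
  have hsbij : Function.Bijective s := by
    rw [Fintype.bijective_iff_injective_and_card]
    exact ⟨hsinj, by simp [hIJ]⟩
  let e := Equiv.ofBijective s hsbij
  have he : ∀ y, s (e.symm y) = y := fun y => e.apply_symm_apply y
  refine ⟨fun y => p (e.symm y), fun j => κ (e.symm (.inr j)), ?_, ?_, ?_, ?_, ?_, ?_⟩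
  · intro y
    exact ⟨h2 _, h1 _, h3 _, h4 _⟩
  · intro y y' hne x hx hx'
    exact hMd _ _ (fun h => hne (e.symm.injective h)) _ (h5 _ x hx) (h5 _ x hx')
  · intro i
    refine ⟨_, h9 _, ?_⟩
    rcases h10 (e.symm (.inl i)) with ⟨i', h, -, h'⟩ | ⟨j, h, -⟩ | ⟨j, c, h, -⟩
    · rw [he] at h; cases h; exact h'
    · rw [he] at h; cases h
    · rw [he] at h; cases h
  · intro j0 hj
    replace hj : κ (e.symm (.inr j0)) = none := hj
    refine ⟨_, h9 _, ?_⟩
    rcases h10 (e.symm (.inr j0)) with ⟨i', h, -, h'⟩ | ⟨j, h, -, h'⟩ | ⟨j, c, h, h', -⟩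
    · rw [he] at h; cases h
    · exact h'
    · rw [hj] at h'; cases h'
  · intro j0 c hj
    replace hj : κ (e.symm (.inr j0)) = some c := hj
    refine ⟨_, h9 _, ?_⟩
    rcases h10 (e.symm (.inr j0)) with ⟨i', h, -, h'⟩ | ⟨j, h, h', -⟩ | ⟨j, c', h, h', h''⟩
    · rw [he] at h; cases h
    · rw [hj] at h'; cases h'
    · rw [hj] at h'; cases h'; exact h''
  · intro j j' c hj hj'
    by_contra hne
    exact hMd _ _ (fun h => hne (Sum.inr_injective (e.symm.injective h))) _ (h8 _ c hj) (h8 _ c hj')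

end Pool.Agent.H63.Hager
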