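import Pool.Agent.H16.HG.Defs
import Pool.Agent.H63.Hager.Route

set_option autoImplicit false
set_option linter.unusedSectionVars false

namespace Pool.Agent.H63.Hager

open HG

variable {t : ℕ} {N : Net t}

/-- realised by disjoint segments inside `S` -/
def RealIn (N : Net t) (S : Set N.R) (M : Multiset (Sym2 (Fin t))) : Prop :=
  ∃ (ι : Type) (_ : Fintype ι) (lab : ι → Sym2 (Fin t)) (l : ι → List N.R),
    (∀ i, N.SegS (lab i) (l i)) ∧ (∀ i j, i ≠ j → (l i).Disjoint (l j)) ∧
    (∀ i, ∀ x ∈ l i, x ∈ S) ∧ M = ∑ i, {lab i}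

theorem RealIn.zero (S : Set N.R) : RealIn N S 0 :=
  ⟨Fin 0, inferInstance, Fin.elim0, Fin.elim0, fun i => i.elim0, fun i => i.elim0, fun i => i.elim0,
    by simp⟩

theorem RealIn.single {S : Set N.R} {p : Sym2 (Fin t)} {l : List N.R} (h : N.SegS p l)
    (hS : ∀ x ∈ l, x ∈ S) : RealIn N S {p} :=
  ⟨Fin 1, inferInstance, fun _ => p, fun _ => l, fun _ => h, fun i j hij => by omega, fun _ => hS,
    by simp⟩

theorem RealIn.sum {ι : Type} [Fintype ι] {S : ι → Set N.R} {M : ι → Multiset (Sym2 (Fin t))}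
    (h : ∀ i, RealIn N (S i) (M i)) (hd : ∀ i j, i ≠ j → ∀ x ∈ S i, x ∉ S j) {T : Set N.R}
    (hT : ∀ i, S i ⊆ T) : RealIn N T (∑ i, M i) := by
  choose κ fκ lab l h1 h2 h3 h4 using h
  refine ⟨Σ i, κ i, inferInstance, fun x => lab x.1 x.2, fun x => l x.1 x.2, fun x => h1 _ _, ?_,
    fun x y hy => hT _ (h3 _ _ y hy), ?_⟩
  · rintro ⟨i, x⟩ ⟨j, y⟩ hne
    by_cases hij : i = j
    · subst hij
      exact h2 i x y (fun h => hne (by rw [h]))
    · intro z hz hz'
      exact hd i j hij z (h3 _ _ z hz) (h3 _ _ z hz')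
  · rw [Fintype.sum_sigma]
    exact Finset.sum_congr rfl fun i _ => h4 i

theorem RealIn.add {S S' T : Set N.R} {M M' : Multiset (Sym2 (Fin t))}
    (h : RealIn N S M) (h' : RealIn N S' M') (hd : ∀ x ∈ S, x ∉ S') (hT : S ⊆ T) (hT' : S' ⊆ T) :
    RealIn N T (M + M') := by
  have := RealIn.sum (ι := Bool) (S := fun b => if b then S else S') (M := fun b => if b then M else M')
    (T := T) (by intro b; cases b <;> simpa) (by
      intro b c hbc x hx hx'
      cases b <;> cases c <;> simp at hbc hx hx'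
      · exact hd x hx' hx
      · exact hd x hx hx') (by intro b; cases b <;> simpa)
  simpa using this

theorem RealIn.real {S : Set N.R} {M : Multiset (Sym2 (Fin t))} (h : RealIn N S M) : N.Real M := by
  classical
  obtain ⟨ι, _, lab, l, h1, h2, -, h4⟩ := h
  let e := Fintype.equivFin ι
  refine ⟨Fintype.card ι, fun i => lab (e.symm i), ?_, fun i => l (e.symm i), fun i => h1 _, fun i j hij =>
    h2 _ _ (fun h => hij (e.symm.injective h))⟩
  rw [h4]
  have : (∑ i, {lab i} : Multiset (Sym2 (Fin t))) = ∑ i, {lab (e.symm i)} :=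
    (Equiv.sum_comp e.symm fun i => ({lab i} : Multiset (Sym2 (Fin t)))).symm
  rw [this, ← Multiset.sum_map_singleton ((Finset.univ : Finset (Fin (Fintype.card ι))).val.map _),
    Multiset.map_map]
  rfl

theorem sum_singleton_eq {ι β : Type} [Fintype ι] (f : ι → β) :
    (∑ i, {f i} : Multiset β) = (Finset.univ : Finset ι).val.map f := by
  rw [← Multiset.sum_map_singleton ((Finset.univ : Finset ι).val.map f), Multiset.map_map]
  rfl

/-- equal label multisets give a matching bijection -/
theorem label_equiv {ι κ β : Type} [Fintype ι] [Fintype κ] [DecidableEq β] (f : ι → β) (g : κ → β)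
    (h : (Finset.univ : Finset ι).val.map f = (Finset.univ : Finset κ).val.map g) :
    ∃ e : ι ≃ κ, ∀ i, g (e i) = f i := by
  classical
  have hc : ∀ b, Fintype.card {i // f i = b} = Fintype.card {i // g i = b} := by
    intro b
    have := congrArg (Multiset.count b) h
    rw [Multiset.count_map, Multiset.count_map] at this
    rw [Fintype.card_subtype, Fintype.card_subtype]
    have e1 : (Finset.univ.filter fun i => f i = b).card =
        ((Finset.univ : Finset ι).val.filter fun i => b = f i).card := by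
      rw [Finset.card_def, Finset.filter_val]
      congr 1
      exact Multiset.filter_congr fun i _ => eq_comm
    have e2 : (Finset.univ.filter fun i => g i = b).card =
        ((Finset.univ : Finset κ).val.filter fun i => b = g i).card := by
      rw [Finset.card_def, Finset.filter_val]
      congr 1
      exact Multiset.filter_congr fun i _ => eq_comm
    rw [e1, e2, this]
  let E : ∀ b, {i // f i = b} ≃ {i // g i = b} := fun b => Fintype.equivOfCardEq (hc b)
  refine ⟨(Equiv.sigmaFiberEquiv f).symm.trans ((Equiv.sigmaCongrRight E).trans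
    (Equiv.sigmaFiberEquiv g)), fun i => ?_⟩
  simp only [Equiv.trans_apply]
  exact (E (f i) ⟨i, rfl⟩).2

theorem real_family {ι : Type} [Fintype ι] {p : ι → Sym2 (Fin t)}
    (h : N.Real (∑ i, {p i})) : N.RealF p := by
  classical
  obtain ⟨m, q, hq, L, h1, h2⟩ := h
  rw [sum_singleton_eq] at hq
  obtain ⟨e, he⟩ := label_equiv p q hq.symm
  exact ⟨fun i => L (e i), fun i => he i ▸ h1 (e i), fun i j hij => h2 _ _ fun h => hij (e.injective h)⟩

theorem seg_symm {a b : Fin t} {l : List N.R} (h : N.Seg a b l) : N.Seg b a l.reverse := by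
  obtain ⟨h1, h2, h3, h4⟩ := h
  refine ⟨?_, List.nodup_reverse.2 h2, ?_, ?_⟩
  · rw [List.isChain_reverse]
    exact h1.imp fun _ _ h => h.symm
  · simpa [List.head?_reverse] using h4
  · simpa [List.getLast?_reverse] using h3

/-- `s` comes from `w` and hits `L` in `z` -/
structure Hit (N : Net t) (w : Fin t) (L s : List N.R) (z : N.R) : Prop where
  chain : s.IsChain N.adj.Adj
  nodup : s.Nodup
  head : ∃ x, s.head? = some x ∧ x ∈ N.Γ w
  out : ∀ x ∈ s.dropLast, x ∉ L
  last : s.getLast? = some z
  mem : z ∈ L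

theorem Hit.split {w : Fin t} {L s : List N.R} {z : N.R} (h : Hit N w L s z) :
    ∀ x ∈ s, x ∈ L → x = z := by
  intro x hx hxL
  have hne : s ≠ [] := by rintro rfl; cases hx
  have : s = s.dropLast ++ [z] := by
    conv_lhs => rw [← List.dropLast_append_getLast hne]
    congr 2
    have := h.last
    rw [List.getLast?_eq_getLast_of_ne_nil hne] at this
    exact Option.some_injective _ this
  rw [this] at hx
  rcases List.mem_append.1 hx with hx | hx
  · exact absurd hxL (h.out x hx)
  · simpa using hx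

theorem hit_start {w a b : Fin t} {L s : List N.R} {z : N.R} (hL : N.Seg a b L) (h : Hit N w L s z)
    {l1 l2 : List N.R} (hs : L = l1 ++ z :: l2) : N.Seg w a (s ++ l1.reverse) := by
  obtain ⟨h1, h2, h3, h4⟩ := hL
  subst hs
  have hne : s ≠ [] := by
    rintro rfl
    obtain ⟨x, hx, _⟩ := h.head
    cases hx
  refine ⟨?_, ?_, ?_, ?_⟩
  · rw [List.isChain_append]
    refine ⟨h.chain, ?_, ?_⟩
    · rw [List.isChain_reverse]
      exact ((List.isChain_append.1 h1).1).imp fun _ _ h => h.symm
    · intro x hx y hy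
      have hx' : x = z := by
        have := h.last
        rw [Option.mem_def] at hx
        rw [hx] at this
        exact Option.some_injective _ this
      subst hx'
      have hy' : y ∈ l1.getLast? := by simpa [List.head?_reverse] using hy
      exact ((List.isChain_append.1 h1).2.2 y hy' x (by simp)).symm
  · rw [List.nodup_append]
    refine ⟨h.nodup, List.nodup_reverse.2 (List.nodup_append.1 h2).1, ?_⟩
    rintro x hx y hy rfl
    have hy' : x ∈ l1 := List.mem_reverse.1 hy
    have hz := h.split x hx (by simp [hy'])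
    subst hz
    exact (List.nodup_append.1 h2).2.2 x hy' x (by simp) rfl
  · obtain ⟨x, hx, hxw⟩ := h.head
    refine ⟨x, ?_, hxw⟩
    rw [List.head?_append, hx]
    rfl
  · obtain ⟨x, hx, hxa⟩ := h3
    refine ⟨x, ?_, hxa⟩
    rw [List.getLast?_append]
    cases l1 with
    | nil =>
      simp only [List.nil_append, List.head?_cons, Option.mem_def, Option.some.injEq] at hx
      subst hx
      simpa using h.last
    | cons y l1 =>
      simp only [List.cons_append, List.head?_cons, Option.mem_def, Option.some.injEq] at hx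
      subst hx
      simp [List.getLast?_reverse]

theorem hit_end {w a b : Fin t} {L s : List N.R} {z : N.R} (hL : N.Seg a b L) (h : Hit N w L s z)
    {l1 l2 : List N.R} (hs : L = l1 ++ z :: l2) : N.Seg w b (s ++ l2) := by
  have h' : Hit N w L.reverse s z := ⟨h.chain, h.nodup, h.head, fun x hx hx' =>
    h.out x hx (List.mem_reverse.1 hx'), h.last, List.mem_reverse.2 h.mem⟩
  have := hit_start (seg_symm hL) h' (l1 := l2.reverse) (l2 := l1.reverse) (by simp [hs])
  simpa using this

theorem hit_two {w a b : Fin t} {L s1 s2 : List N.R} {z1 z2 : N.R} (hL : N.Seg a b L)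
    (h1 : Hit N w L s1 z1) (h2 : Hit N w L s2 z2) (hd : s1.Disjoint s2) :
    ∃ p1 p2, N.Seg w a p1 ∧ N.Seg w b p2 ∧ p1.Disjoint p2 ∧
      (∀ x ∈ p1, x ∈ L ∨ x ∈ s1 ∨ x ∈ s2) ∧ (∀ x ∈ p2, x ∈ L ∨ x ∈ s1 ∨ x ∈ s2) := by
  have hz : z1 ≠ z2 := by
    rintro rfl
    exact hd (List.mem_of_getLast? h1.last) (List.mem_of_getLast? h2.last)
  -- the case where `z1` is before `z2`
  have key : ∀ (s1 s2 : List N.R) (z1 z2 : N.R), Hit N w L s1 z1 → Hit N w L s2 z2 → s1.Disjoint s2 →
      ∀ l1 l2 l3 : List N.R, L = l1 ++ z1 :: (l2 ++ z2 :: l3) →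
      ∃ p1 p2, N.Seg w a p1 ∧ N.Seg w b p2 ∧ p1.Disjoint p2 ∧
      (∀ x ∈ p1, x ∈ L ∨ x ∈ s1) ∧ (∀ x ∈ p2, x ∈ L ∨ x ∈ s2) := by
    intro s1 s2 z1 z2 h1 h2 hd l1 l2 l3 hs
    refine ⟨s1 ++ l1.reverse, s2 ++ l3, hit_start hL h1 hs, hit_end (l1 := l1 ++ z1 :: l2) hL h2
      (by rw [hs]; simp), ?_, ?_, ?_⟩
    · intro x hx hx'
      have hnd := hL.2.1
      rcases List.mem_append.1 hx with hx | hx
      · rcases List.mem_append.1 hx' with hx' | hx'
        · exact hd hx hx'
        · have := h1.split x hx (by rw [hs]; simp [hx'])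
          subst this
          rw [hs] at hnd
          have := (List.nodup_append.1 hnd).2.1
          exact (List.nodup_cons.1 this).1 (by simp [hx'])
      · have hx : x ∈ l1 := List.mem_reverse.1 hx
        rcases List.mem_append.1 hx' with hx' | hx'
        · have := h2.split x hx' (by rw [hs]; simp [hx])
          subst this
          rw [hs] at hnd
          exact (List.nodup_append.1 hnd).2.2 x hx x (by simp) rfl
        · rw [hs] at hnd
          exact (List.nodup_append.1 hnd).2.2 x hx x (by simp [hx']) rfl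
    · intro x hx
      rcases List.mem_append.1 hx with hx | hx
      · exact Or.inr hx
      · exact Or.inl (by rw [hs]; simp [List.mem_reverse.1 hx])
    · intro x hx
      rcases List.mem_append.1 hx with hx | hx
      · exact Or.inr hx
      · exact Or.inl (by rw [hs]; simp [hx])
  obtain ⟨l1, l2, hs⟩ := List.append_of_mem h1.mem
  have hz2 : z2 ∈ l1 ∨ z2 ∈ l2 := by
    have := h2.mem
    rw [hs] at this
    rcases List.mem_append.1 this with h | h
    · exact Or.inl h
    · rcases List.mem_cons.1 h with h | h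
      · exact absurd h.symm hz
      · exact Or.inr h
  rcases hz2 with hz2 | hz2
  · obtain ⟨m1, m2, rfl⟩ := List.append_of_mem hz2
    obtain ⟨p1, p2, g1, g2, g3, g4, g5⟩ := key s2 s1 z2 z1 h2 h1 hd.symm m1 m2 l2 (by rw [hs]; simp)
    exact ⟨p1, p2, g1, g2, g3, fun x hx => (g4 x hx).imp id Or.inr, fun x hx => (g5 x hx).imp id Or.inl⟩
  · obtain ⟨m1, m2, rfl⟩ := List.append_of_mem hz2
    obtain ⟨p1, p2, g1, g2, g3, g4, g5⟩ := key s1 s2 z1 z2 h1 h2 hd l1 m1 m2 hs
    exact ⟨p1, p2, g1, g2, g3, fun x hx => (g4 x hx).imp id Or.inl, fun x hx => (g5 x hx).imp id Or.inr⟩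

end Pool.Agent.H63.Hager
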