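import Pool.Agent.H63.Hager.GXp

set_option autoImplicit false
set_option linter.unusedSectionVars false

namespace Pool.Agent.H63.Hager

open HG Finset

variable {t : ℕ}

theorem sum_smul_fiber {J β γ : Type} [Fintype J] [Fintype β] [DecidableEq β] [AddCommMonoid γ]
    (cl : J → β) (g : β → γ) :
    ∑ j, g (cl j) = ∑ y, (univ.filter fun j => cl j = y).card • g y := by
  classical
  rw [← Finset.sum_fiberwise univ cl (fun j => g (cl j))]
  refine Finset.sum_congr rfl fun y _ => ?_
  rw [← Finset.sum_const]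
  refine Finset.sum_congr rfl fun j hj => ?_
  rw [(Finset.mem_filter.1 hj).2]

theorem gx {k : ℕ} (N : Net t) [Fintype N.R] [DecidableEq N.R]
    (hSP : SP N.adj.Adj N.Γ (k * (t - 1))) : GX t k N.Real := by
  classical
  intro n a b hab hR w c hc hsum hmult
  obtain ⟨L, hL, hLd⟩ := real_family hR
  have hdir : ∀ i, ∃ l, N.Seg (a i) (b i) l ∧ ∀ x, x ∈ l ↔ x ∈ L i := by
    intro i
    obtain ⟨a', b', h1, h2⟩ := hL i
    rcases Sym2.eq_iff.1 h1 with ⟨h3, h4⟩ | ⟨h3, h4⟩
    · exact ⟨L i, by rw [h3, h4]; exact h2, fun _ => Iff.rfl⟩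
    · exact ⟨(L i).reverse, by rw [h3, h4]; exact seg_symm h2, fun _ => List.mem_reverse⟩
  choose D hD hDL using hdir
  have hDd : ∀ i j, i ≠ j → (D i).Disjoint (D j) := fun i j hij x hx hx' =>
    hLd i j hij ((hDL i x).1 hx) ((hDL j x).1 hx')
  obtain ⟨J, _, cl, Pw, P, hw1, hw2, hw3, hPd, hP1, hP2, hcap, hcard⟩ :=
    gx_core N hSP a b hab D hD hDd w c hc hsum hmult
  refine ⟨fun i => (univ.filter fun j => cl j = .inl i).card,
    fun v => (univ.filter fun j => cl j = .inr v).card, ?_, ?_, hcap, ?_, ?_⟩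
  · intro i hi
    rw [Finset.card_eq_zero, Finset.filter_eq_empty_iff]
    intro j _ hj
    exact (hP1 i j hj).1 hi
  · rw [Finset.card_eq_zero, Finset.filter_eq_empty_iff]
    intro j _ hj
    exact (hP2 w j hj).1 rfl
  · have h1 : Fintype.card J = ∑ y : Fin n ⊕ Fin t, (univ.filter fun j => cl j = y).card := by
      have := sum_smul_fiber cl (fun _ => 1)
      simpa using this
    rw [Fintype.sum_sum_type] at h1
    rw [← h1]
    exact hcard
  · intro ch hch1 hch3
    replace hch1 : ∀ i, (ch i = 1 ∨ ch i = 2) → 1 ≤ (univ.filter fun j => cl j = .inl i).card := hch1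
    replace hch3 : ∀ i, ch i = 3 → 2 ≤ (univ.filter fun j => cl j = .inl i).card := hch3
    -- the blocks
    let S : Fin n → Set N.R := fun i => {x | (¬ (a i = w ∨ b i = w) ∧ (x ∈ D i ∨ ∃ j, cl j = .inl i ∧ x ∈ P j)) ∨
      ((a i = w ∨ b i = w) ∧ x ∈ Pw i)}
    let T : J → Set N.R := fun j => {x | ∃ v, cl j = .inr v ∧ x ∈ P j}
    have hdisS : ∀ i i', i ≠ i' → ∀ x ∈ S i, x ∉ S i' := by
      intro i i' hne x hx hx'
      rcases hx with ⟨hi, hx⟩ | ⟨hi, hx⟩ <;> rcases hx' with ⟨hi', hx'⟩ | ⟨hi', hx'⟩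
      · rcases hx with hx | ⟨j, hj, hx⟩ <;> rcases hx' with hx' | ⟨j', hj', hx'⟩
        · exact hDd i i' hne hx hx'
        · exact (hP1 i' j' hj').2.2 x hx' i hne hi hx
        · exact (hP1 i j hj).2.2 x hx i' hne.symm hi' hx'
        · by_cases h : j = j'
          · subst h
            rw [hj] at hj'
            exact hne (Sum.inl_injective hj')
          · exact hPd j j' h hx hx'
      · rcases hx with hx | ⟨j, hj, hx⟩
        · exact (hw1 i' hi').2 x hx' i hi hx
        · exact hw3 i' j hi' hx' hx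
      · rcases hx' with hx' | ⟨j, hj, hx'⟩
        · exact (hw1 i hi).2 x hx i' hi' hx'
        · exact hw3 i j hi hx hx'
      · exact hw2 i i' hi hi' hne hx hx'
    have hdisT : ∀ j j', j ≠ j' → ∀ x ∈ T j, x ∉ T j' := by
      rintro j j' hne x ⟨v, hv, hx⟩ ⟨v', hv', hx'⟩
      exact hPd j j' hne hx hx'
    have hdisST : ∀ i j, ∀ x ∈ S i, x ∉ T j := by
      rintro i j x hx ⟨v, hv, hxj⟩
      rcases hx with ⟨hi, hx⟩ | ⟨hi, hx⟩
      · rcases hx with hx | ⟨j', hj', hx⟩
        · exact (hP2 v j hv).2.2 x hxj i hi hx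
        · by_cases h : j' = j
          · subst h
            rw [hj'] at hv
            cases hv
          · exact hPd j' j h hx hxj
      · exact hw3 i j hi hx hxj
    have hblock : ∀ i, RealIn N (S i) (rep w (a i) (b i) (ch i)) := by
      intro i
      by_cases hi : a i = w ∨ b i = w
      · have h0 : (univ.filter fun j => cl j = .inl i).card = 0 := by
          rw [Finset.card_eq_zero, Finset.filter_eq_empty_iff]
          intro j _ hj
          exact (hP1 i j hj).1 hi
        have hch : ch i = 0 := by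
          have e1 := hch1 i
          have e3 := hch3 i
          rw [h0] at e1 e3
          rcases h : ch i with ⟨m, hm⟩
          interval_cases m
          · rfl
          · have := e1 (Or.inl h); omega
          · have := e1 (Or.inr h); omega
          · have := e3 h; omega
        rw [hch]
        exact RealIn.single (hw1 i hi).1 fun x hx => Or.inr ⟨hi, hx⟩
      · have hget : 1 ≤ (univ.filter fun j => cl j = .inl i).card → ∃ j, cl j = .inl i := by
          intro h
          obtain ⟨j, hj⟩ := Finset.card_pos.1 h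
          exact ⟨j, (Finset.mem_filter.1 hj).2⟩
        have hget2 : 2 ≤ (univ.filter fun j => cl j = .inl i).card →
            ∃ j j', j ≠ j' ∧ cl j = .inl i ∧ cl j' = .inl i := by
          intro h
          obtain ⟨j, hj, j', hj', hne⟩ := Finset.one_lt_card.1 h
          exact ⟨j, j', hne, (Finset.mem_filter.1 hj).2, (Finset.mem_filter.1 hj').2⟩
        rcases h : ch i with ⟨m, hm⟩
        interval_cases m
        · exact RealIn.single ⟨a i, b i, rfl, hD i⟩ fun x hx => Or.inl ⟨hi, Or.inl hx⟩
        · obtain ⟨j, hj⟩ := hget (hch1 i (Or.inl h))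
          obtain ⟨-, ⟨z, hz⟩, -⟩ := hP1 i j hj
          obtain ⟨l1, l2, hs⟩ := List.append_of_mem hz.mem
          refine RealIn.single ⟨w, a i, rfl, hit_start (hD i) hz hs⟩ fun x hx => Or.inl ⟨hi, ?_⟩
          rcases List.mem_append.1 hx with hx | hx
          · exact Or.inr ⟨j, hj, hx⟩
          · exact Or.inl (by rw [hs]; simp [List.mem_reverse.1 hx])
        · obtain ⟨j, hj⟩ := hget (hch1 i (Or.inr h))
          obtain ⟨-, ⟨z, hz⟩, -⟩ := hP1 i j hj
          obtain ⟨l1, l2, hs⟩ := List.append_of_mem hz.mem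
          refine RealIn.single ⟨w, b i, rfl, hit_end (hD i) hz hs⟩ fun x hx => Or.inl ⟨hi, ?_⟩
          rcases List.mem_append.1 hx with hx | hx
          · exact Or.inr ⟨j, hj, hx⟩
          · exact Or.inl (by rw [hs]; simp [hx])
        · obtain ⟨j, j', hne, hj, hj'⟩ := hget2 (hch3 i h)
          obtain ⟨-, ⟨z, hz⟩, -⟩ := hP1 i j hj
          obtain ⟨-, ⟨z', hz'⟩, -⟩ := hP1 i j' hj'
          obtain ⟨p1, p2, g1, g2, g3, g4, g5⟩ := hit_two (hD i) hz hz' (hPd j j' hne)
          have := RealIn.add (N := N) (S := {x | x ∈ p1}) (S' := {x | x ∈ p2}) (T := S i)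
            (RealIn.single ⟨w, a i, rfl, g1⟩ fun x hx => hx)
            (RealIn.single ⟨w, b i, rfl, g2⟩ fun x hx => hx)
            (fun x hx hx' => g3 hx hx')
            (fun x hx => Or.inl ⟨hi, by
              rcases g4 x hx with h | h | h
              · exact Or.inl h
              · exact Or.inr ⟨j, hj, h⟩
              · exact Or.inr ⟨j', hj', h⟩⟩)
            (fun x hx => Or.inl ⟨hi, by
              rcases g5 x hx with h | h | h
              · exact Or.inl h
              · exact Or.inr ⟨j, hj, h⟩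
              · exact Or.inr ⟨j', hj', h⟩⟩)
          exact this
    let G : Fin n ⊕ Fin t → Multiset (Sym2 (Fin t)) := fun y => match y with
      | .inl _ => 0
      | .inr v => {s(w, v)}
    have hT : ∀ j, RealIn N (T j) (G (cl j)) := by
      intro j
      rcases h : cl j with i | v
      · exact RealIn.zero _
      · exact RealIn.single ⟨w, v, rfl, (hP2 v j h).2.1⟩ fun x hx => ⟨v, h, hx⟩
    have h1 := RealIn.sum hblock hdisS (T := ⋃ i, S i) (fun i => Set.subset_iUnion _ _)
    have h2 := RealIn.sum hT hdisT (T := ⋃ j, T j) (fun i => Set.subset_iUnion _ _)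
    have h3 := RealIn.add h1 h2 (by
      intro x hx hx'
      obtain ⟨i, hi⟩ := Set.mem_iUnion.1 hx
      obtain ⟨j, hj⟩ := Set.mem_iUnion.1 hx'
      exact hdisST i j x hi hj) (T := Set.univ) (Set.subset_univ _) (Set.subset_univ _)
    have h4 : ∑ j, G (cl j) = ∑ v, (univ.filter fun j => cl j = .inr v).card • ({s(w, v)} : Multiset (Sym2 (Fin t))) := by
      rw [sum_smul_fiber cl G, Fintype.sum_sum_type]
      simp [G]
    rw [h4] at h3
    exact h3.real

end Pool.Agent.H63.Hager
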