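import Pool.Agent.H63.Hager.Blocks

set_option autoImplicit false
set_option linter.unusedSectionVars false

namespace Pool.Agent.H63.Hager

open HG Finset

variable {t : ℕ}

theorem last_split {β : Type} {s : List β} {z : β} (h : s.getLast? = some z) :
    ∀ x ∈ s, x ∈ s.dropLast ∨ x = z := by
  intro x hx
  have hne : s ≠ [] := by rintro rfl; cases hx
  have : s = s.dropLast ++ [z] := by
    conv_lhs => rw [← List.dropLast_append_getLast hne]
    congr 2
    rw [List.getLast?_eq_getLast_of_ne_nil hne] at h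
    exact Option.some_injective _ h
  rw [this] at hx
  rcases List.mem_append.1 hx with hx | hx
  · exact Or.inl hx
  · exact Or.inr (by simpa using hx)

/-- The combinatorial part: choice of the classes. -/
theorem gx_core {k : ℕ} (N : Net t) [Fintype N.R] [DecidableEq N.R]
    (hSP : SP N.adj.Adj N.Γ (k * (t - 1))) {n : ℕ} (a b : Fin n → Fin t) (hab : ∀ i, a i ≠ b i)
    (D : Fin n → List N.R) (hD : ∀ i, N.Seg (a i) (b i) (D i))
    (hDd : ∀ i j, i ≠ j → (D i).Disjoint (D j)) (w : Fin t) (c : Fin t → ℕ)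
    (hc : ∀ v, v ≠ w → 1 ≤ c v) (hsum : ∑ v ∈ univ.erase w, c v = k * (t - 1))
    (hmult : ∀ v, v ≠ w → (univ.filter fun i => s(a i, b i) = s(w, v)).card ≤ c v) :
    ∃ (J : Type) (_ : Fintype J) (cl : J → Fin n ⊕ Fin t) (Pw : Fin n → List N.R)
      (P : J → List N.R),
      (∀ i, (a i = w ∨ b i = w) → N.SegS s(a i, b i) (Pw i) ∧
        ∀ x ∈ Pw i, ∀ i', ¬ (a i' = w ∨ b i' = w) → x ∉ D i') ∧
      (∀ i i', (a i = w ∨ b i = w) → (a i' = w ∨ b i' = w) → i ≠ i' → (Pw i).Disjoint (Pw i')) ∧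
      (∀ i j, (a i = w ∨ b i = w) → (Pw i).Disjoint (P j)) ∧
      (∀ j j', j ≠ j' → (P j).Disjoint (P j')) ∧
      (∀ i j, cl j = .inl i → ¬ (a i = w ∨ b i = w) ∧ (∃ z, Hit N w (D i) (P j) z) ∧
        ∀ x ∈ P j, ∀ i', i' ≠ i → ¬ (a i' = w ∨ b i' = w) → x ∉ D i') ∧
      (∀ v j, cl j = .inr v → v ≠ w ∧ N.Seg w v (P j) ∧
        ∀ x ∈ P j, ∀ i', ¬ (a i' = w ∨ b i' = w) → x ∉ D i') ∧
      (∀ v, v ≠ w → (univ.filter fun j => cl j = .inr v).card +
        (univ.filter fun i => s(a i, b i) = s(w, v)).card ≤ c v) ∧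
      Fintype.card J + (univ.filter fun i => a i = w ∨ b i = w).card = k * (t - 1) := by
  classical
  set W : Fin n → Prop := fun i => a i = w ∨ b i = w with hW
  let mult : Fin t → ℕ := fun v => (univ.filter fun i => s(a i, b i) = s(w, v)).card
  let FI : Finset (Fin n) := univ.filter W
  let o' : Fin n → Fin t := fun i => if a i = w then b i else a i
  have ho' : ∀ i, W i → o' i ≠ w := by
    intro i hi
    by_cases h : a i = w
    · simp only [o', h, if_true]
      exact fun h' => hab i (h.trans h'.symm)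
    · simp only [o', h, if_false]
      exact h
  have hos : ∀ i, W i → s(a i, b i) = s(w, o' i) := by
    intro i hi
    by_cases h : a i = w
    · simp only [o', h, if_true]
    · simp only [o', h, if_false]
      rcases hi with hi | hi
      · exact absurd hi h
      · rw [hi, Sym2.eq_swap]
  have hfib : ∀ v, v ≠ w → FI.filter (fun i => o' i = v) = univ.filter fun i => s(a i, b i) = s(w, v) := by
    intro v hv
    ext i
    simp only [FI, mem_filter, mem_univ, true_and]
    constructor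
    · rintro ⟨h1, h2⟩
      rw [hos i h1, h2]
    · intro h
      have hWi : W i := by
        have : w ∈ s(a i, b i) := by rw [h]; simp
        rcases Sym2.mem_iff.1 this with h | h
        · exact Or.inl h.symm
        · exact Or.inr h.symm
      refine ⟨hWi, ?_⟩
      rw [hos i hWi] at h
      exact (Sym2.congr_right.1 h)
  have hcardFI : FI.card = ∑ v ∈ univ.erase w, mult v := by
    rw [Finset.card_eq_sum_card_fiberwise (f := o') (t := univ.erase w)]
    · exact Finset.sum_congr rfl fun v hv => by rw [hfib v (Finset.ne_of_mem_erase hv)]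
    · intro i hi
      simp only [coe_erase, coe_univ, Set.mem_sdiff, Set.mem_univ, Set.mem_singleton_iff, true_and]
      exact ho' i (Finset.mem_filter.1 hi).2
  have hsub : ∑ v ∈ univ.erase w, (c v - mult v) + FI.card = k * (t - 1) := by
    rw [hcardFI, ← Finset.sum_add_distrib, ← hsum]
    exact Finset.sum_congr rfl fun v hv => Nat.sub_add_cancel (hmult v (Finset.ne_of_mem_erase hv))
  have hcardK : Fintype.card (Σ v : {v : Fin t // v ≠ w}, Fin (c v.1 - mult v.1)) =
      ∑ v ∈ univ.erase w, (c v - mult v) := by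
    rw [Fintype.card_sigma]
    simp only [Fintype.card_fin]
    rw [← Finset.sum_subtype (univ.erase w) (fun x => by simp) (fun v => c v - mult v)]
  have hcardI : Fintype.card {i : Fin n // W i} = FI.card := Fintype.card_subtype _
  let XF : Set N.R := {x | ∃ i, ¬ W i ∧ x ∈ D i}
  let q0 : {i : Fin n // W i} → List N.R := fun i => if a i.1 = w then D i.1 else (D i.1).reverse
  have hq0m : ∀ i x, x ∈ q0 i ↔ x ∈ D i.1 := by
    intro i x
    by_cases h : a i.1 = w <;> simp [q0, h]
  have hq0 : ∀ i, Seg N.adj.Adj N.Γ w (o' i.1) (q0 i) := by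
    intro i
    have key : N.Seg w (o' i.1) (q0 i) := by
      by_cases h : a i.1 = w
      · have := hD i.1
        simp only [o', q0, h, if_true]
        rwa [h] at this
      · have h' : b i.1 = w := i.2.resolve_left h
        have := seg_symm (hD i.1)
        simp only [o', q0, h, if_false]
        rwa [h'] at this
    obtain ⟨h1, h2, ⟨x, hx, hx'⟩, ⟨y, hy, hy'⟩⟩ := key
    exact ⟨h2, h1, fun _ _ => Finset.mem_univ _, ⟨x, hx, hx'⟩, ⟨y, hy, hy'⟩⟩
  obtain ⟨P, kd, hP, hPd, hPI, hPn, hPs, hPi⟩ := route (J := Fin (k * (t - 1) - FI.card)) hSP w XF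
    (fun i : {i : Fin n // W i} => o' i.1)
    (fun x : (Σ v : {v : Fin t // v ≠ w}, Fin (c v.1 - mult v.1)) => x.1.1)
    (by
      intro v hv
      by_cases hm : mult v = 0
      · right
        exact ⟨⟨⟨v, hv⟩, ⟨0, by have := hc v hv; simp only [hm]; omega⟩⟩, rfl⟩
      · left
        obtain ⟨i, hi⟩ := Finset.card_pos.1 (Nat.pos_of_ne_zero hm)
        rw [← hfib v hv] at hi
        have h1 := Finset.mem_filter.1 hi
        exact ⟨⟨i, (Finset.mem_filter.1 h1.1).2⟩, h1.2⟩)
    (fun i => ho' i.1 i.2) (fun x => x.1.2) (by rw [hcardK, hcardI]; omega)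
    (by rw [hcardI, Fintype.card_fin]; omega) q0 hq0
    (by
      intro i j hij x hx hx'
      exact hDd i.1 j.1 (fun h => hij (Subtype.ext h)) ((hq0m i x).1 hx) ((hq0m j x).1 hx'))
    (by
      rintro i x hx ⟨j, hj, hxj⟩
      refine hDd i.1 j ?_ ((hq0m i x).1 hx) hxj
      rintro rfl
      exact hj i.2)
  have hcl : ∀ j, ∃ y : Fin n ⊕ Fin t, (∀ i, y = .inl i → kd j = none ∧ ¬ W i ∧
      ∃ z, (P (.inr j)).getLast? = some z ∧ z ∈ D i) ∧
      (∀ v, y = .inr v → ∃ c', kd j = some c' ∧ c'.1.1 = v) := by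
    intro j
    rcases hk : kd j with _ | c'
    · obtain ⟨z, hz, i, hi, hzi⟩ := hPn j hk
      refine ⟨.inl i, ?_, ?_⟩
      · intro i' h
        cases h
        exact ⟨rfl, hi, z, hz, hzi⟩
      · intro v h
        cases h
    · refine ⟨.inr c'.1.1, ?_, ?_⟩
      · intro i h
        cases h
      · intro v h
        cases h
        exact ⟨c', rfl, rfl⟩
  choose cl hcl1 hcl2 using hcl
  refine ⟨Fin (k * (t - 1) - FI.card), inferInstance, cl,
    fun i => if h : W i then P (.inl ⟨i, h⟩) else [], fun j => P (.inr j), ?_, ?_, ?_, ?_, ?_, ?_, ?_, ?_⟩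
  · intro i hi
    have hi' : W i := hi
    simp only [hi', dif_pos]
    obtain ⟨h1, h2, ⟨x, hx, hxw⟩, h4⟩ := hP (.inl ⟨i, hi⟩)
    obtain ⟨y, hy, hyX, hyo⟩ := hPI ⟨i, hi⟩
    refine ⟨⟨w, o' i, hos i hi, h2, h1, ⟨x, hx, hxw⟩, ⟨y, hy, hyo⟩⟩, ?_⟩
    intro v hv i' hi' hvD
    rcases last_split hy v hv with h | h
    · exact h4 v h ⟨i', hi', hvD⟩
    · exact hyX (h ▸ ⟨i', hi', hvD⟩)
  · intro i i' hi hi' hne
    have h1 : W i := hi
    have h2 : W i' := hi'
    simp only [h1, h2, dif_pos]
    exact hPd _ _ (fun h => hne (by cases h; rfl))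
  · intro i j hi
    have h1 : W i := hi
    simp only [h1, dif_pos]
    exact hPd _ _ (by simp)
  · intro j j' hne
    exact hPd _ _ (fun h => hne (Sum.inr_injective h))
  · intro i j hij
    obtain ⟨h1, h2, z, hz, hzi⟩ := hcl1 j i hij
    obtain ⟨g1, g2, ⟨x, hx, hxw⟩, g4⟩ := hP (.inr j)
    refine ⟨h2, ⟨z, g2, g1, ⟨x, hx, hxw⟩, fun y hy hyD => g4 y hy ⟨i, h2, hyD⟩, hz, hzi⟩, ?_⟩
    intro y hy i' hne hi' hyD
    rcases last_split hz y hy with h | h
    · exact g4 y h ⟨i', hi', hyD⟩
    · subst h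
      exact hDd i' i hne hyD hzi
  · intro v j hj
    obtain ⟨c', hc', hv⟩ := hcl2 j v hj
    obtain ⟨y, hy, hyX, hyo⟩ := hPs j c' hc'
    obtain ⟨g1, g2, ⟨x, hx, hxw⟩, g4⟩ := hP (.inr j)
    subst hv
    refine ⟨c'.1.2, ⟨g2, g1, ⟨x, hx, hxw⟩, ⟨y, hy, hyo⟩⟩, ?_⟩
    intro v hv i' hi' hvD
    rcases last_split hy v hv with h | h
    · exact g4 v h ⟨i', hi', hvD⟩
    · exact hyX (h ▸ ⟨i', hi', hvD⟩)
  · intro v hv
    have h1 : (univ.filter fun j => cl j = .inr v).card ≤ c v - mult v := by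
      have hne : ∀ j, cl j = .inr v → ∃ y : Fin (c v - mult v), kd j = some ⟨⟨v, hv⟩, y⟩ := by
        intro j hj
        obtain ⟨⟨⟨v', hv'⟩, y⟩, hc', h⟩ := hcl2 j v hj
        simp only at h
        subst h
        exact ⟨y, hc'⟩
      by_cases h0 : c v - mult v = 0
      · rw [h0, Nat.le_zero, Finset.card_eq_zero, Finset.filter_eq_empty_iff]
        intro j _ hj
        obtain ⟨y, _⟩ := hne j hj
        rw [h0] at y
        exact y.elim0
      · have : Nonempty (Fin (c v - mult v)) := ⟨⟨0, by omega⟩⟩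
        choose! g hg using hne
        rw [← Fintype.card_fin (c v - mult v), ← Finset.card_univ (α := Fin (c v - mult v))]
        refine Finset.card_le_card_of_injOn g (fun _ _ => Finset.mem_coe.2 (Finset.mem_univ _)) ?_
        intro j hj j' hj' h
        have e1 := hg j (Finset.mem_filter.1 hj).2
        have e2 := hg j' (Finset.mem_filter.1 hj').2
        rw [h] at e1
        exact hPi j j' _ e1 e2
    have h2 := hmult v hv
    change _ + mult v ≤ c v
    change mult v ≤ c v at h2
    omega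
  · rw [Fintype.card_fin]
    change k * (t - 1) - FI.card + FI.card = k * (t - 1)
    omega

end Pool.Agent.H63.Hager
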