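import Pool.Agent.H63.Hager.GenX
import Pool.Agent.H63.Hager.SPg

set_option autoImplicit false

namespace Pool.Agent.H63.Hager.Gen

open HG Finset Pool.Agent.H63.Hager

/-- The general exchange property for the net of a `κ`-connected graph. -/
theorem GXGN (t κ : ℕ) (V : Type) [Finite V] (G : SimpleGraph V) (τ : Fin t → V)
    (hτ : Function.Injective τ) (hV : κ + 1 ≤ Nat.card V)
    (hG : ∀ X : Finset V, X.card < κ → (G.induce ((↑X : Set V)ᶜ)).Connected) :
    HG.GXN t κ (netOf G τ).Real := by
  classical
  have := (netOf G τ).fin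
  have := Fintype.ofFinite (netOf G τ).R
  exact gx _ (sp_netOf G τ hτ hV hG)

end Pool.Agent.H63.Hager.Gen
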