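import Pool.Agent.H63.Hager.Blocks

set_option autoImplicit false
set_option linter.unusedSectionVars false

/-!
The general exchange property for an arbitrary connectivity `κ` (instead of `k * (t - 1)`).
-/

namespace HG

open Finset

/-- the general exchange property with connectivity `κ` -/
def GXN (t κ : ℕ) (Real : Multiset (Sym2 (Fin t)) → Prop) : Prop :=
  ∀ (n : ℕ) (a b : Fin n → Fin t), (∀ i, a i ≠ b i) → Real (∑ i, {s(a i, b i)}) →
  ∀ (w : Fin t) (c : Fin t → ℕ), (∀ v, v ≠ w → 1 ≤ c v) → ∑ v ∈ univ.erase w, c v = κ →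
    (∀ v, v ≠ w → (univ.filter fun i => s(a i, b i) = s(w, v)).card ≤ c v) →
    ∃ (h : Fin n → ℕ) (u : Fin t → ℕ),
      (∀ i, (a i = w ∨ b i = w) → h i = 0) ∧ u w = 0 ∧
      (∀ v, v ≠ w → u v + (univ.filter fun i => s(a i, b i) = s(w, v)).card ≤ c v) ∧
      ∑ i, h i + ∑ v, u v + (univ.filter fun i => a i = w ∨ b i = w).card = κ ∧
      ∀ ch : Fin n → Fin 4, (∀ i, (ch i = 1 ∨ ch i = 2) → 1 ≤ h i) → (∀ i, ch i = 3 → 2 ≤ h i) →
        Real (∑ i, rep w (a i) (b i) (ch i) + ∑ v, u v • {s(w, v)})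

theorem GXN_iff (t k : ℕ) (Real : Multiset (Sym2 (Fin t)) → Prop) : GXN t (k * (t - 1)) Real ↔ GX t k Real :=
  Iff.rfl

end HG

namespace Pool.Agent.H63.Hager.Gen

open HG Finset Pool.Agent.H63.Hager

variable {t : ℕ}

theorem last_split {β : Type} {s : List β} {z : β} (h : s.getLast? = some z) :
    ∀ x ∈ s, x ∈ s.dropLast ∨ x = z := by
  intro x hx
  have hne : s ≠ [] := by rintro rfl; cases hx
  have : s = s.dropLast ++ [z] := by
    conv_lhs => rw [← List.dropLast_append_getLast hne]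
    congr 2
    rw [List.getLast?_eq_getLast_of_ne_nil hne] at h
    exact Option.some_injective _ h
  rw [this] at hx
  rcases List.mem_append.1 hx with hx | hx
  · exact Or.inl hx
  · exact Or.inr (by simpa using hx)

/-- The combinatorial part: choice of the classes. -/
theorem gx_core {κ : ℕ} (N : Net t) [Fintype N.R] [DecidableEq N.R]
    (hSP : SP N.adj.Adj N.Γ κ) {n : ℕ} (a b : Fin n → Fin t) (hab : ∀ i, a i ≠ b i)
    (D : Fin n → List N.R) (hD : ∀ i, N.Seg (a i) (b i) (D i))
    (hDd : ∀ i j, i ≠ j → (D i).Disjoint (D j)) (w : Fin t) (c : Fin t → ℕ)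
    (hc : ∀ v, v ≠ w → 1 ≤ c v) (hsum : ∑ v ∈ univ.erase w, c v = κ)
    (hmult : ∀ v, v ≠ w → (univ.filter fun i => s(a i, b i) = s(w, v)).card ≤ c v) :
    ∃ (J : Type) (_ : Fintype J) (cl : J → Fin n ⊕ Fin t) (Pw : Fin n → List N.R)
      (P : J → List N.R),
      (∀ i, (a i = w ∨ b i = w) → N.SegS s(a i, b i) (Pw i) ∧
        ∀ x ∈ Pw i, ∀ i', ¬ (a i' = w ∨ b i' = w) → x ∉ D i') ∧
      (∀ i i', (a i = w ∨ b i = w) → (a i' = w ∨ b i' = w) → i ≠ i' → (Pw i).Disjoint (Pw i')) ∧
      (∀ i j, (a i = w ∨ b i = w) → (Pw i).Disjoint (P j)) ∧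
      (∀ j j', j ≠ j' → (P j).Disjoint (P j')) ∧
      (∀ i j, cl j = .inl i → ¬ (a i = w ∨ b i = w) ∧ (∃ z, Hit N w (D i) (P j) z) ∧
        ∀ x ∈ P j, ∀ i', i' ≠ i → ¬ (a i' = w ∨ b i' = w) → x ∉ D i') ∧
      (∀ v j, cl j = .inr v → v ≠ w ∧ N.Seg w v (P j) ∧
        ∀ x ∈ P j, ∀ i', ¬ (a i' = w ∨ b i' = w) → x ∉ D i') ∧
      (∀ v, v ≠ w → (univ.filter fun j => cl j = .inr v).card +
        (univ.filter fun i => s(a i, b i) = s(w, v)).card ≤ c v) ∧
      Fintype.card J + (univ.filter fun i => a i = w ∨ b i = w).card = κ := by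
  classical
  set W : Fin n → Prop := fun i => a i = w ∨ b i = w with hW
  let mult : Fin t → ℕ := fun v => (univ.filter fun i => s(a i, b i) = s(w, v)).card
  let FI : Finset (Fin n) := univ.filter W
  let o' : Fin n → Fin t := fun i => if a i = w then b i else a i
  have ho' : ∀ i, W i → o' i ≠ w := by
    intro i hi
    by_cases h : a i = w
    · simp only [o', h, if_true]
      exact fun h' => hab i (h.trans h'.symm)
    · simp only [o', h, if_false]
      exact h
  have hos : ∀ i, W i → s(a i, b i) = s(w, o' i) := by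
    intro i hi
    by_cases h : a i = w
    · simp only [o', h, if_true]
    · simp only [o', h, if_false]
      rcases hi with hi | hi
      · exact absurd hi h
      · rw [hi, Sym2.eq_swap]
  have hfib : ∀ v, v ≠ w → FI.filter (fun i => o' i = v) = univ.filter fun i => s(a i, b i) = s(w, v) := by
    intro v hv
    ext i
    simp only [FI, mem_filter, mem_univ, true_and]
    constructor
    · rintro ⟨h1, h2⟩
      rw [hos i h1, h2]
    · intro h
      have hWi : W i := by
        have : w ∈ s(a i, b i) := by rw [h]; simp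
        rcases Sym2.mem_iff.1 this with h | h
        · exact Or.inl h.symm
        · exact Or.inr h.symm
      refine ⟨hWi, ?_⟩
      rw [hos i hWi] at h
      exact (Sym2.congr_right.1 h)
  have hcardFI : FI.card = ∑ v ∈ univ.erase w, mult v := by
    rw [Finset.card_eq_sum_card_fiberwise (f := o') (t := univ.erase w)]
    · exact Finset.sum_congr rfl fun v hv => by rw [hfib v (Finset.ne_of_mem_erase hv)]
    · intro i hi
      simp only [coe_erase, coe_univ, Set.mem_sdiff, Set.mem_univ, Set.mem_singleton_iff, true_and]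
      exact ho' i (Finset.mem_filter.1 hi).2
  have hsub : ∑ v ∈ univ.erase w, (c v - mult v) + FI.card = κ := by
    rw [hcardFI, ← Finset.sum_add_distrib, ← hsum]
    exact Finset.sum_congr rfl fun v hv => Nat.sub_add_cancel (hmult v (Finset.ne_of_mem_erase hv))
  have hcardK : Fintype.card (Σ v : {v : Fin t // v ≠ w}, Fin (c v.1 - mult v.1)) =
      ∑ v ∈ univ.erase w, (c v - mult v) := by
    rw [Fintype.card_sigma]
    simp only [Fintype.card_fin]
    rw [← Finset.sum_subtype (univ.erase w) (fun x => by simp) (fun v => c v - mult v)]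
  have hcardI : Fintype.card {i : Fin n // W i} = FI.card := Fintype.card_subtype _
  let XF : Set N.R := {x | ∃ i, ¬ W i ∧ x ∈ D i}
  let q0 : {i : Fin n // W i} → List N.R := fun i => if a i.1 = w then D i.1 else (D i.1).reverse
  have hq0m : ∀ i x, x ∈ q0 i ↔ x ∈ D i.1 := by
    intro i x
    by_cases h : a i.1 = w <;> simp [q0, h]
  have hq0 : ∀ i, Seg N.adj.Adj N.Γ w (o' i.1) (q0 i) := by
    intro i
    have key : N.Seg w (o' i.1) (q0 i) := by
      by_cases h : a i.1 = w
      · have := hD i.1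
        simp only [o', q0, h, if_true]
        rwa [h] at this
      · have h' : b i.1 = w := i.2.resolve_left h
        have := seg_symm (hD i.1)
        simp only [o', q0, h, if_false]
        rwa [h'] at this
    obtain ⟨h1, h2, ⟨x, hx, hx'⟩, ⟨y, hy, hy'⟩⟩ := key
    exact ⟨h2, h1, fun _ _ => Finset.mem_univ _, ⟨x, hx, hx'⟩, ⟨y, hy, hy'⟩⟩
  obtain ⟨P, kd, hP, hPd, hPI, hPn, hPs, hPi⟩ := route (J := Fin (κ - FI.card)) hSP w XF
    (fun i : {i : Fin n // W i} => o' i.1)
    (fun x : (Σ v : {v : Fin t // v ≠ w}, Fin (c v.1 - mult v.1)) => x.1.1)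
    (by
      intro v hv
      by_cases hm : mult v = 0
      · right
        exact ⟨⟨⟨v, hv⟩, ⟨0, by have := hc v hv; simp only [hm]; omega⟩⟩, rfl⟩
      · left
        obtain ⟨i, hi⟩ := Finset.card_pos.1 (Nat.pos_of_ne_zero hm)
        rw [← hfib v hv] at hi
        have h1 := Finset.mem_filter.1 hi
        exact ⟨⟨i, (Finset.mem_filter.1 h1.1).2⟩, h1.2⟩)
    (fun i => ho' i.1 i.2) (fun x => x.1.2) (by rw [hcardK, hcardI]; omega)
    (by rw [hcardI, Fintype.card_fin]; omega) q0 hq0
    (by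
      intro i j hij x hx hx'
      exact hDd i.1 j.1 (fun h => hij (Subtype.ext h)) ((hq0m i x).1 hx) ((hq0m j x).1 hx'))
    (by
      rintro i x hx ⟨j, hj, hxj⟩
      refine hDd i.1 j ?_ ((hq0m i x).1 hx) hxj
      rintro rfl
      exact hj i.2)
  have hcl : ∀ j, ∃ y : Fin n ⊕ Fin t, (∀ i, y = .inl i → kd j = none ∧ ¬ W i ∧
      ∃ z, (P (.inr j)).getLast? = some z ∧ z ∈ D i) ∧
      (∀ v, y = .inr v → ∃ c', kd j = some c' ∧ c'.1.1 = v) := by
    intro j
    rcases hk : kd j with _ | c'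
    · obtain ⟨z, hz, i, hi, hzi⟩ := hPn j hk
      refine ⟨.inl i, ?_, ?_⟩
      · intro i' h
        cases h
        exact ⟨rfl, hi, z, hz, hzi⟩
      · intro v h
        cases h
    · refine ⟨.inr c'.1.1, ?_, ?_⟩
      · intro i h
        cases h
      · intro v h
        cases h
        exact ⟨c', rfl, rfl⟩
  choose cl hcl1 hcl2 using hcl
  refine ⟨Fin (κ - FI.card), inferInstance, cl,
    fun i => if h : W i then P (.inl ⟨i, h⟩) else [], fun j => P (.inr j), ?_, ?_, ?_, ?_, ?_, ?_, ?_, ?_⟩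
  · intro i hi
    have hi' : W i := hi
    simp only [hi', dif_pos]
    obtain ⟨h1, h2, ⟨x, hx, hxw⟩, h4⟩ := hP (.inl ⟨i, hi⟩)
    obtain ⟨y, hy, hyX, hyo⟩ := hPI ⟨i, hi⟩
    refine ⟨⟨w, o' i, hos i hi, h2, h1, ⟨x, hx, hxw⟩, ⟨y, hy, hyo⟩⟩, ?_⟩
    intro v hv i' hi' hvD
    rcases last_split hy v hv with h | h
    · exact h4 v h ⟨i', hi', hvD⟩
    · exact hyX (h ▸ ⟨i', hi', hvD⟩)
  · intro i i' hi hi' hne
    have h1 : W i := hi
    have h2 : W i' := hi'
    simp only [h1, h2, dif_pos]
    exact hPd _ _ (fun h => hne (by cases h; rfl))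
  · intro i j hi
    have h1 : W i := hi
    simp only [h1, dif_pos]
    exact hPd _ _ (by simp)
  · intro j j' hne
    exact hPd _ _ (fun h => hne (Sum.inr_injective h))
  · intro i j hij
    obtain ⟨h1, h2, z, hz, hzi⟩ := hcl1 j i hij
    obtain ⟨g1, g2, ⟨x, hx, hxw⟩, g4⟩ := hP (.inr j)
    refine ⟨h2, ⟨z, g2, g1, ⟨x, hx, hxw⟩, fun y hy hyD => g4 y hy ⟨i, h2, hyD⟩, hz, hzi⟩, ?_⟩
    intro y hy i' hne hi' hyD
    rcases last_split hz y hy with h | h
    · exact g4 y h ⟨i', hi', hyD⟩
    · subst h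
      exact hDd i' i hne hyD hzi
  · intro v j hj
    obtain ⟨c', hc', hv⟩ := hcl2 j v hj
    obtain ⟨y, hy, hyX, hyo⟩ := hPs j c' hc'
    obtain ⟨g1, g2, ⟨x, hx, hxw⟩, g4⟩ := hP (.inr j)
    subst hv
    refine ⟨c'.1.2, ⟨g2, g1, ⟨x, hx, hxw⟩, ⟨y, hy, hyo⟩⟩, ?_⟩
    intro v hv i' hi' hvD
    rcases last_split hy v hv with h | h
    · exact g4 v h ⟨i', hi', hvD⟩
    · exact hyX (h ▸ ⟨i', hi', hvD⟩)
  · intro v hv
    have h1 : (univ.filter fun j => cl j = .inr v).card ≤ c v - mult v := by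
      have hne : ∀ j, cl j = .inr v → ∃ y : Fin (c v - mult v), kd j = some ⟨⟨v, hv⟩, y⟩ := by
        intro j hj
        obtain ⟨⟨⟨v', hv'⟩, y⟩, hc', h⟩ := hcl2 j v hj
        simp only at h
        subst h
        exact ⟨y, hc'⟩
      by_cases h0 : c v - mult v = 0
      · rw [h0, Nat.le_zero, Finset.card_eq_zero, Finset.filter_eq_empty_iff]
        intro j _ hj
        obtain ⟨y, _⟩ := hne j hj
        rw [h0] at y
        exact y.elim0
      · have : Nonempty (Fin (c v - mult v)) := ⟨⟨0, by omega⟩⟩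
        choose! g hg using hne
        rw [← Fintype.card_fin (c v - mult v), ← Finset.card_univ (α := Fin (c v - mult v))]
        refine Finset.card_le_card_of_injOn g (fun _ _ => Finset.mem_coe.2 (Finset.mem_univ _)) ?_
        intro j hj j' hj' h
        have e1 := hg j (Finset.mem_filter.1 hj).2
        have e2 := hg j' (Finset.mem_filter.1 hj').2
        rw [h] at e1
        exact hPi j j' _ e1 e2
    have h2 := hmult v hv
    change _ + mult v ≤ c v
    change mult v ≤ c v at h2
    omega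
  · rw [Fintype.card_fin]
    change κ - FI.card + FI.card = κ
    omega

theorem sum_smul_fiber {J β γ : Type} [Fintype J] [Fintype β] [DecidableEq β] [AddCommMonoid γ]
    (cl : J → β) (g : β → γ) :
    ∑ j, g (cl j) = ∑ y, (univ.filter fun j => cl j = y).card • g y := by
  classical
  rw [← Finset.sum_fiberwise univ cl (fun j => g (cl j))]
  refine Finset.sum_congr rfl fun y _ => ?_
  rw [← Finset.sum_const]
  refine Finset.sum_congr rfl fun j hj => ?_
  rw [(Finset.mem_filter.1 hj).2]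

theorem gx {κ : ℕ} (N : Net t) [Fintype N.R] [DecidableEq N.R]
    (hSP : SP N.adj.Adj N.Γ κ) : GXN t κ N.Real := by
  classical
  intro n a b hab hR w c hc hsum hmult
  obtain ⟨L, hL, hLd⟩ := real_family hR
  have hdir : ∀ i, ∃ l, N.Seg (a i) (b i) l ∧ ∀ x, x ∈ l ↔ x ∈ L i := by
    intro i
    obtain ⟨a', b', h1, h2⟩ := hL i
    rcases Sym2.eq_iff.1 h1 with ⟨h3, h4⟩ | ⟨h3, h4⟩
    · exact ⟨L i, by rw [h3, h4]; exact h2, fun _ => Iff.rfl⟩
    · exact ⟨(L i).reverse, by rw [h3, h4]; exact seg_symm h2, fun _ => List.mem_reverse⟩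
  choose D hD hDL using hdir
  have hDd : ∀ i j, i ≠ j → (D i).Disjoint (D j) := fun i j hij x hx hx' =>
    hLd i j hij ((hDL i x).1 hx) ((hDL j x).1 hx')
  obtain ⟨J, _, cl, Pw, P, hw1, hw2, hw3, hPd, hP1, hP2, hcap, hcard⟩ :=
    gx_core N hSP a b hab D hD hDd w c hc hsum hmult
  refine ⟨fun i => (univ.filter fun j => cl j = .inl i).card,
    fun v => (univ.filter fun j => cl j = .inr v).card, ?_, ?_, hcap, ?_, ?_⟩
  · intro i hi
    rw [Finset.card_eq_zero, Finset.filter_eq_empty_iff]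
    intro j _ hj
    exact (hP1 i j hj).1 hi
  · rw [Finset.card_eq_zero, Finset.filter_eq_empty_iff]
    intro j _ hj
    exact (hP2 w j hj).1 rfl
  · have h1 : Fintype.card J = ∑ y : Fin n ⊕ Fin t, (univ.filter fun j => cl j = y).card := by
      have := sum_smul_fiber cl (fun _ => 1)
      simpa using this
    rw [Fintype.sum_sum_type] at h1
    rw [← h1]
    exact hcard
  · intro ch hch1 hch3
    replace hch1 : ∀ i, (ch i = 1 ∨ ch i = 2) → 1 ≤ (univ.filter fun j => cl j = .inl i).card := hch1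
    replace hch3 : ∀ i, ch i = 3 → 2 ≤ (univ.filter fun j => cl j = .inl i).card := hch3
    -- the blocks
    let S : Fin n → Set N.R := fun i => {x | (¬ (a i = w ∨ b i = w) ∧ (x ∈ D i ∨ ∃ j, cl j = .inl i ∧ x ∈ P j)) ∨
      ((a i = w ∨ b i = w) ∧ x ∈ Pw i)}
    let T : J → Set N.R := fun j => {x | ∃ v, cl j = .inr v ∧ x ∈ P j}
    have hdisS : ∀ i i', i ≠ i' → ∀ x ∈ S i, x ∉ S i' := by
      intro i i' hne x hx hx'
      rcases hx with ⟨hi, hx⟩ | ⟨hi, hx⟩ <;> rcases hx' with ⟨hi', hx'⟩ | ⟨hi', hx'⟩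
      · rcases hx with hx | ⟨j, hj, hx⟩ <;> rcases hx' with hx' | ⟨j', hj', hx'⟩
        · exact hDd i i' hne hx hx'
        · exact (hP1 i' j' hj').2.2 x hx' i hne hi hx
        · exact (hP1 i j hj).2.2 x hx i' hne.symm hi' hx'
        · by_cases h : j = j'
          · subst h
            rw [hj] at hj'
            exact hne (Sum.inl_injective hj')
          · exact hPd j j' h hx hx'
      · rcases hx with hx | ⟨j, hj, hx⟩
        · exact (hw1 i' hi').2 x hx' i hi hx
        · exact hw3 i' j hi' hx' hx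
      · rcases hx' with hx' | ⟨j, hj, hx'⟩
        · exact (hw1 i hi).2 x hx i' hi' hx'
        · exact hw3 i j hi hx hx'
      · exact hw2 i i' hi hi' hne hx hx'
    have hdisT : ∀ j j', j ≠ j' → ∀ x ∈ T j, x ∉ T j' := by
      rintro j j' hne x ⟨v, hv, hx⟩ ⟨v', hv', hx'⟩
      exact hPd j j' hne hx hx'
    have hdisST : ∀ i j, ∀ x ∈ S i, x ∉ T j := by
      rintro i j x hx ⟨v, hv, hxj⟩
      rcases hx with ⟨hi, hx⟩ | ⟨hi, hx⟩
      · rcases hx with hx | ⟨j', hj', hx⟩
        · exact (hP2 v j hv).2.2 x hxj i hi hx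
        · by_cases h : j' = j
          · subst h
            rw [hj'] at hv
            cases hv
          · exact hPd j' j h hx hxj
      · exact hw3 i j hi hx hxj
    have hblock : ∀ i, RealIn N (S i) (rep w (a i) (b i) (ch i)) := by
      intro i
      by_cases hi : a i = w ∨ b i = w
      · have h0 : (univ.filter fun j => cl j = .inl i).card = 0 := by
          rw [Finset.card_eq_zero, Finset.filter_eq_empty_iff]
          intro j _ hj
          exact (hP1 i j hj).1 hi
        have hch : ch i = 0 := by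
          have e1 := hch1 i
          have e3 := hch3 i
          rw [h0] at e1 e3
          rcases h : ch i with ⟨m, hm⟩
          interval_cases m
          · rfl
          · have := e1 (Or.inl h); omega
          · have := e1 (Or.inr h); omega
          · have := e3 h; omega
        rw [hch]
        exact RealIn.single (hw1 i hi).1 fun x hx => Or.inr ⟨hi, hx⟩
      · have hget : 1 ≤ (univ.filter fun j => cl j = .inl i).card → ∃ j, cl j = .inl i := by
          intro h
          obtain ⟨j, hj⟩ := Finset.card_pos.1 h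
          exact ⟨j, (Finset.mem_filter.1 hj).2⟩
        have hget2 : 2 ≤ (univ.filter fun j => cl j = .inl i).card →
            ∃ j j', j ≠ j' ∧ cl j = .inl i ∧ cl j' = .inl i := by
          intro h
          obtain ⟨j, hj, j', hj', hne⟩ := Finset.one_lt_card.1 h
          exact ⟨j, j', hne, (Finset.mem_filter.1 hj).2, (Finset.mem_filter.1 hj').2⟩
        rcases h : ch i with ⟨m, hm⟩
        interval_cases m
        · exact RealIn.single ⟨a i, b i, rfl, hD i⟩ fun x hx => Or.inl ⟨hi, Or.inl hx⟩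
        · obtain ⟨j, hj⟩ := hget (hch1 i (Or.inl h))
          obtain ⟨-, ⟨z, hz⟩, -⟩ := hP1 i j hj
          obtain ⟨l1, l2, hs⟩ := List.append_of_mem hz.mem
          refine RealIn.single ⟨w, a i, rfl, hit_start (hD i) hz hs⟩ fun x hx => Or.inl ⟨hi, ?_⟩
          rcases List.mem_append.1 hx with hx | hx
          · exact Or.inr ⟨j, hj, hx⟩
          · exact Or.inl (by rw [hs]; simp [List.mem_reverse.1 hx])
        · obtain ⟨j, hj⟩ := hget (hch1 i (Or.inr h))
          obtain ⟨-, ⟨z, hz⟩, -⟩ := hP1 i j hj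
          obtain ⟨l1, l2, hs⟩ := List.append_of_mem hz.mem
          refine RealIn.single ⟨w, b i, rfl, hit_end (hD i) hz hs⟩ fun x hx => Or.inl ⟨hi, ?_⟩
          rcases List.mem_append.1 hx with hx | hx
          · exact Or.inr ⟨j, hj, hx⟩
          · exact Or.inl (by rw [hs]; simp [hx])
        · obtain ⟨j, j', hne, hj, hj'⟩ := hget2 (hch3 i h)
          obtain ⟨-, ⟨z, hz⟩, -⟩ := hP1 i j hj
          obtain ⟨-, ⟨z', hz'⟩, -⟩ := hP1 i j' hj'
          obtain ⟨p1, p2, g1, g2, g3, g4, g5⟩ := hit_two (hD i) hz hz' (hPd j j' hne)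
          have := RealIn.add (N := N) (S := {x | x ∈ p1}) (S' := {x | x ∈ p2}) (T := S i)
            (RealIn.single ⟨w, a i, rfl, g1⟩ fun x hx => hx)
            (RealIn.single ⟨w, b i, rfl, g2⟩ fun x hx => hx)
            (fun x hx hx' => g3 hx hx')
            (fun x hx => Or.inl ⟨hi, by
              rcases g4 x hx with h | h | h
              · exact Or.inl h
              · exact Or.inr ⟨j, hj, h⟩
              · exact Or.inr ⟨j', hj', h⟩⟩)
            (fun x hx => Or.inl ⟨hi, by
              rcases g5 x hx with h | h | h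
              · exact Or.inl h
              · exact Or.inr ⟨j, hj, h⟩
              · exact Or.inr ⟨j', hj', h⟩⟩)
          exact this
    let G : Fin n ⊕ Fin t → Multiset (Sym2 (Fin t)) := fun y => match y with
      | .inl _ => 0
      | .inr v => {s(w, v)}
    have hT : ∀ j, RealIn N (T j) (G (cl j)) := by
      intro j
      rcases h : cl j with i | v
      · exact RealIn.zero _
      · exact RealIn.single ⟨w, v, rfl, (hP2 v j h).2.1⟩ fun x hx => ⟨v, h, hx⟩
    have h1 := RealIn.sum hblock hdisS (T := ⋃ i, S i) (fun i => Set.subset_iUnion _ _)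
    have h2 := RealIn.sum hT hdisT (T := ⋃ j, T j) (fun i => Set.subset_iUnion _ _)
    have h3 := RealIn.add h1 h2 (by
      intro x hx hx'
      obtain ⟨i, hi⟩ := Set.mem_iUnion.1 hx
      obtain ⟨j, hj⟩ := Set.mem_iUnion.1 hx'
      exact hdisST i j x hi hj) (T := Set.univ) (Set.subset_univ _) (Set.subset_univ _)
    have h4 : ∑ j, G (cl j) = ∑ v, (univ.filter fun j => cl j = .inr v).card • ({s(w, v)} : Multiset (Sym2 (Fin t))) := by
      rw [sum_smul_fiber cl G, Fintype.sum_sum_type]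
      simp [G]
    rw [h4] at h3
    exact h3.real


end Pool.Agent.H63.Hager.Gen
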